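import Pool.Agent.R296.MB.D
import Pool.Agent.R296.VC.Null
import Pool.Agent.R296.VC.Circ

/-!
# The logarithmically averaged Sarnak conjecture for extensions of arbitrary systems with fibres of small complexity:
all points over most points of the base (helper296)

Let `π : (X, T) → (Y, S)` be a factor map of topological systems; nothing is assumed about the base, which may have
positive entropy. If most fibres of `π` are covered by `o(H)` balls in the mean metric of the orbits of length `H`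
(relatively null extensions, skew products with homeomorphisms of the circle or monotone maps of a finite graph), then
for most points `y` of each orbit of the base, and for all but a small proportion of the points `y` for each invariant
measure of the base, all points over `y` are orthogonal to the Möbius function at the scale `N`, for all `N` outside of
a set of logarithmic density zero, and on logarithmic average for all `N`.
-/

set_option autoImplicit false

open Finset Filter Topology MeasureTheory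

namespace Pool.Agent.Results.MP_3e612f_nt.ArbitraryBase

open Classical in
/-- `E` has logarithmic density zero -/
def LogDensityZero (E : Set ℕ) : Prop := Tendsto
  (fun X : ℕ => (∑ n ∈ Icc 1 X, if n ∈ E then (1 : ℝ) / n else 0) / Real.log X) atTop (𝓝 0)

/-- `e(x) = exp(2 π i x)` -/
noncomputable def e (x : ℝ) : ℂ := Complex.exp (2 * Real.pi * x * Complex.I)

/-- the Möbius function -/
def mu (n : ℕ) : ℤ := ArithmeticFunction.moebius n

/-- the Liouville function -/
def lam (n : ℕ) : ℤ := (-1) ^ ArithmeticFunction.cardFactors n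

/-- The orbits of the points of `P` are in `G` but for a proportion `δ` of the times, uniformly in the point. -/
def MostlyIn {Y : Type} (S : Y → Y) (P G : Set Y) (δ : ℝ) : Prop :=
  ∃ N₀ : ℕ, ∀ N ≥ N₀, ∀ y ∈ P, ∃ V : Finset ℕ, (∀ n < N, S^[n] y ∉ G → n ∈ V) ∧ (V.card : ℝ) ≤ δ * N

/-- Most fibres have sublinear complexity in the mean for the function `F`: for each `δ > 0` there are a length `H` and
a closed set `G` of base points, in which the orbits of `P` spend at least the proportion `1 - δ` of their time, such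
that the fibre over each point of `G` is covered by at most `δ H` balls of radius `δ` for the mean distance
`(1/H) ∑_{m < H} |F(T^m x) - F(T^m a)|`. -/
def SmallFibres {X Y : Type} [TopologicalSpace Y] (S : Y → Y) (P : Set Y) (T : X → X) (π : X → Y) (F : X → ℂ) :
    Prop :=
  ∀ δ : ℝ, 0 < δ → ∃ H : ℕ, 1 ≤ H ∧ ∃ G : Set Y, IsClosed G ∧ MostlyIn S P G δ ∧
    ∀ y ∈ G, ∃ A : Finset X, (A.card : ℝ) ≤ δ * H ∧ ∀ x, π x = y →
      ∃ a ∈ A, ∑ m ∈ range H, ‖F (T^[m] x) - F (T^[m] a)‖ ≤ δ * H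

/-- The extension is null relative to its base, over most points of the base: for disjoint closed sets `A`, `B` and each
`δ > 0` there are `d` and a closed set `G` of base points, in which the orbits of `P` spend at least the proportion
`1 - δ` of their time, such that for `y` in `G` and any times `m₁, …, m_d` some pattern `τ` of visits
(`T^(m_i) x ∈ A` if `τ_i` is true, `T^(m_i) x ∈ B` if not, for all `i`) is not realised in the fibre over `y`. -/
def RelativelyNull {X Y : Type} [TopologicalSpace X] [TopologicalSpace Y] (S : Y → Y) (P : Set Y) (T : X → X)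
    (π : X → Y) : Prop :=
  ∀ A B : Set X, IsClosed A → IsClosed B → Disjoint A B → ∀ δ : ℝ, 0 < δ → ∃ (d : ℕ) (G : Set Y), IsClosed G ∧
    MostlyIn S P G δ ∧ ∀ y ∈ G, ∀ m : Fin d → ℕ, ∃ τ : Fin d → Bool, ∀ x, π x = y →
      ∃ i, T^[m i] x ∉ (if τ i then A else B)

/-- a finite graph: locally connected, and but for finitely many points it is the union of finitely many open arcs -/
def FiniteGraph (Z : Type) [TopologicalSpace Z] : Prop :=
  LocallyConnectedSpace Z ∧ ∃ (k : ℕ) (γ : Fin k → ℝ → Z), (∀ i, Continuous (γ i)) ∧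
    (∀ i, Set.InjOn (γ i) (Set.Ioo 0 1)) ∧ (∀ i a b, 0 ≤ a → b ≤ 1 → IsOpen (γ i '' Set.Ioo a b)) ∧
    (⋃ i, γ i '' Set.Ioo 0 1)ᶜ.Finite

/-- the skew product `T(y, z) = (S y, f_y(z))` -/
def skew {Y Z : Type} (S : Y → Y) (f : Y → Z → Z) (x : Y × Z) : Y × Z := (S x.1, f x.1 x.2)

/-- the sequence `u(n) e(θ n) F(Tⁿ x)` -/
noncomputable def seq {X : Type} (u : ℕ → ℤ) (θ : ℝ) (T : X → X) (F : X → ℂ) (x : X) (n : ℕ) : ℂ :=
  (u n : ℂ) * e (θ * n) * F (T^[n] x)

/-- Over most points of each orbit of the base which starts in `P`, the function `F` is disjoint from `u`, uniformly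
over all points of the fibres and all twists `θ`: for all large `N`, all `M ≥ N` and all `y` in `P` there is a set `V` of
at most `ε M` integers such that for all `l < M` outside of `V`
(1) if `N ∉ E`, then `|(1/N) ∑_{n ≤ N} u(n) e(θ n) F(Tⁿ x)| ≤ ε` for all `x` over `S^l y`;
(2) `|∑_{n ≤ N} u(n) e(θ n) F(Tⁿ x) / n| ≤ ε log N` for all `x` over `S^l y`.
(3) is (1) for short intervals `[n, n + H)`, on average over `n < N`, where for each interval the point may be replaced
by another point `x_n` of the fibre over `S^(n + l) y`. -/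
def MostShifts {X Y : Type} (E : Set ℕ) (u : ℕ → ℤ) (S : Y → Y) (P : Set Y) (T : X → X) (π : X → Y) (F : X → ℂ) :
    Prop :=
  ∀ ε : ℝ, 0 < ε →
    (∃ N₀ : ℕ, ∀ N ≥ N₀, N ∉ E → ∀ M ≥ N, ∀ y ∈ P, ∃ V : Finset ℕ, (V.card : ℝ) ≤ ε * M ∧ ∀ l < M, l ∉ V →
      ∀ x, π x = S^[l] y → ∀ θ : ℝ, ‖∑ n ∈ Icc 1 N, seq u θ T F x n‖ ≤ ε * N) ∧
    (∃ N₀ : ℕ, ∀ N ≥ N₀, ∀ M ≥ N, ∀ y ∈ P, ∃ V : Finset ℕ, (V.card : ℝ) ≤ ε * M ∧ ∀ l < M, l ∉ V →
      ∀ x, π x = S^[l] y → ∀ θ : ℝ, ‖∑ n ∈ Icc 1 N, seq u θ T F x n / n‖ ≤ ε * Real.log N) ∧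
    ∃ H₀ : ℕ, ∀ H ≥ H₀, ∃ N₀ : ℕ, ∀ N ≥ N₀, N ∉ E → ∀ M ≥ N, ∀ y ∈ P, ∃ V : Finset ℕ, (V.card : ℝ) ≤ ε * M ∧
      ∀ l < M, l ∉ V → ∀ x : ℕ → X, (∀ n, π (x n) = S^[n] (S^[l] y)) → ∀ θ : ℝ,
      ∑ n ∈ range N, ‖∑ m ∈ range H, (u (n + m) : ℂ) * e (θ * (n + m : ℕ)) * F (T^[m] (x n))‖ ≤ ε * (H * N)

/-- The same for the invariant probability measures `ρ` of the base: for all large `N`, uniformly in `ρ`, all points over
all points of the base outside of a set of (outer) measure at most `ε` satisfy (1) and (2). -/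
def MostPoints {X Y : Type} [TopologicalSpace Y] (E : Set ℕ) (u : ℕ → ℤ) (S : Y → Y) (T : X → X) (π : X → Y)
    (F : X → ℂ) : Prop :=
  ∀ [MeasurableSpace Y] [BorelSpace Y], ∀ ε : ℝ, 0 < ε → ∃ N₀ : ℕ, ∀ N ≥ N₀, ∀ ρ : Measure Y,
    IsProbabilityMeasure ρ → MeasurePreserving S ρ ρ →
    (N ∉ E → ρ {y | ∃ x, π x = y ∧ ∃ θ : ℝ, ε * N < ‖∑ n ∈ Icc 1 N, seq u θ T F x n‖} ≤ ENNReal.ofReal ε) ∧
    ρ {y | ∃ x, π x = y ∧ ∃ θ : ℝ, ε * Real.log N < ‖∑ n ∈ Icc 1 N, seq u θ T F x n / n‖} ≤ ENNReal.ofReal ε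

/-- all conclusions -/
def Conclusion {X Y : Type} [TopologicalSpace Y] (E : Set ℕ) (S : Y → Y) (P : Set Y) (T : X → X) (π : X → Y)
    (F : X → ℂ) : Prop :=
  MostShifts E mu S P T π F ∧ MostShifts E lam S P T π F ∧
    (P = Set.univ → MostPoints E mu S T π F ∧ MostPoints E lam S T π F)

/-- (A) arbitrary base, most fibres of sublinear complexity in the mean -/
def PartA (E : Set ℕ) : Prop :=
  ∀ (X Y : Type) [TopologicalSpace X] [CompactSpace X] [TopologicalSpace Y] [CompactSpace Y] [T2Space Y]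
    (S : Y → Y) (P : Set Y) (T : X → X) (π : X → Y), Continuous T → Continuous π →
    (∀ x, π (T x) = S (π x)) → ∀ F : C(X, ℂ), SmallFibres S P T π F → Conclusion E S P T π F

/-- (B) arbitrary base, relatively null extension -/
def PartB (E : Set ℕ) : Prop :=
  ∀ (X Y : Type) [TopologicalSpace X] [CompactSpace X] [TopologicalSpace Y] [CompactSpace Y] [T2Space Y]
    (S : Y → Y) (P : Set Y) (T : X → X) (π : X → Y), Continuous T → Continuous π →
    (∀ x, π (T x) = S (π x)) → RelativelyNull S P T π → ∀ F : C(X, ℂ), Conclusion E S P T π F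

/-- (C) arbitrary base, skew product with monotone maps (preimages of connected sets are connected) of a finite graph;
all points of the base -/
def PartC (E : Set ℕ) : Prop :=
  ∀ (Y Z : Type) [TopologicalSpace Y] [CompactSpace Y] [T2Space Y] [TopologicalSpace Z] [CompactSpace Z] [T2Space Z]
    (S : Y → Y) (f : Y → Z → Z), FiniteGraph Z → Continuous S →
    Continuous (fun x : Y × Z => f x.1 x.2) → (∀ y D, IsPreconnected D → IsPreconnected (f y ⁻¹' D)) →
    ∀ F : C(Y × Z, ℂ), Conclusion E S Set.univ (skew S f) Prod.fst F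

/-- (D) arbitrary base, skew product with homeomorphisms of the circle -/
def PartD (E : Set ℕ) : Prop :=
  ∀ (Y : Type) [TopologicalSpace Y] [CompactSpace Y] [T2Space Y] (S : Y → Y)
    (f : Y → AddCircle (1 : ℝ) → AddCircle (1 : ℝ)), Continuous S →
    Continuous (fun x : Y × AddCircle (1 : ℝ) => f x.1 x.2) → (∀ y, Function.Bijective (f y)) →
    ∀ F : C(Y × AddCircle (1 : ℝ), ℂ), Conclusion E S Set.univ (skew S f) Prod.fst F

open Pool.Agent.R296.RE Pool.Agent.R296.VC Pool.Agent.R296.MB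

section

variable {X Y : Type}

lemma e_fract (θ : ℝ) (n : ℕ) : e (θ * n) = e (Int.fract θ * n) := by
  have h1 : θ * n = Int.fract θ * n + ((⌊θ⌋ * (n : ℤ) : ℤ) : ℝ) := by
    push_cast
    nth_rewrite 1 [← Int.floor_add_fract θ]
    ring
  rw [h1]
  unfold e
  rw [Complex.exp_eq_exp_iff_exists_int]
  refine ⟨⌊θ⌋ * (n : ℤ), ?_⟩
  push_cast
  ring

set_option linter.unusedSectionVars false

variable [TopologicalSpace X] [CompactSpace X] [TopologicalSpace Y] [CompactSpace Y] [T2Space Y]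

theorem shifts_of {E : Set ℕ} (hE : LogDensityZero E) {u : ℕ → ℤ} (hu : ∀ n, |u n| ≤ 1) (hK : Kf u E) {S : Y → Y}
    {P : Set Y} {T : X → X}
    (hT : Continuous T) {π : X → Y} (hπ : Continuous π) (hπT : ∀ x, π (T x) = S (π x)) (F : C(X, ℂ))
    (hF : SmallFibres S P T π F) : MostShifts E u S P T π F := by
  have hC : ∀ x, ‖F x‖ ≤ ‖F‖ := fun x => ContinuousMap.norm_coe_le_norm F x
  have h1 := most_windows hu hK hT hπ hπT F.continuous (norm_nonneg F) hC hF
  have h2 := nat_of_win hu hπT hC h1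
  have h3 := log_of_nat hu hE (norm_nonneg F) hC h2
  intro ε hε
  exact ⟨h2 ε hε, h3 ε hε, h1 ε hε⟩

/-- from most shifts to invariant measures -/
theorem meas_aux {S : Y → Y} {π : X → Y} (hπ : Continuous π) {h : X → ℝ → ℂ}
    (hc : Continuous fun q : X × ℝ => h q.1 q.2) (hfr : ∀ x θ, h x θ = h x (Int.fract θ)) {ε R : ℝ} (hR : 0 < R)
    (hε : 0 < ε) (M : ℕ) (hM : 1 ≤ M)
    (hs : ∀ y, ∃ V : Finset ℕ, (V.card : ℝ) ≤ ε / 2 * M ∧ ∀ l < M, l ∉ V → ∀ x, π x = S^[l] y → ∀ θ : ℝ,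
      ‖h x θ‖ ≤ ε / 2 * R) [MeasurableSpace Y] [BorelSpace Y] {ρ : Measure Y} [IsProbabilityMeasure ρ]
    (hS : MeasurePreserving S ρ ρ) : ρ {y | ∃ x, π x = y ∧ ∃ θ : ℝ, ε * R < ‖h x θ‖} ≤ ENNReal.ofReal ε := by
  set K : Set (X × ℝ) := {q | q.2 ∈ Set.Icc (0 : ℝ) 1 ∧ ε * R ≤ ‖h q.1 q.2‖} with hK
  have hKc : IsCompact K := by
    have h1 : IsCompact ((Set.univ : Set X) ×ˢ Set.Icc (0 : ℝ) 1) := isCompact_univ.prod isCompact_Icc
    refine h1.of_isClosed_subset ?_ ?_
    · exact (isClosed_Icc.preimage continuous_snd).inter (isClosed_le continuous_const hc.norm)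
    · rintro ⟨x, θ⟩ ⟨h2, -⟩
      exact ⟨Set.mem_univ _, h2⟩
  set B : Set Y := (fun q : X × ℝ => π q.1) '' K with hB
  have hBm : MeasurableSet B := (hKc.image (hπ.comp continuous_fst)).isClosed.measurableSet
  have hsub : {y | ∃ x, π x = y ∧ ∃ θ : ℝ, ε * R < ‖h x θ‖} ⊆ B := by
    rintro y ⟨x, rfl, θ, hθ⟩
    refine ⟨(x, Int.fract θ), ⟨⟨Int.fract_nonneg θ, (Int.fract_lt_one θ).le⟩, ?_⟩, rfl⟩
    show ε * R ≤ ‖h x (Int.fract θ)‖
    rw [← hfr]
    exact hθ.le
  refine (measure_mono hsub).trans ?_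
  refine meas_of_most hS hBm M hM hε.le fun y => ?_
  obtain ⟨V, hV1, hV2⟩ := hs y
  have hM0 : (0 : ℝ) ≤ M := Nat.cast_nonneg M
  refine ⟨V, by nlinarith, fun l hl hlV hy => ?_⟩
  obtain ⟨⟨x, θ⟩, ⟨-, h2⟩, h3⟩ := hy
  have h4 := hV2 l hl hlV x h3 θ
  have h5 : ε * R ≤ ‖h x θ‖ := h2
  have : 0 < ε * R := by positivity
  linarith

lemma seq_fract (u : ℕ → ℤ) (θ : ℝ) (T : X → X) (F : X → ℂ) (x : X) (n : ℕ) :
    seq u θ T F x n = seq u (Int.fract θ) T F x n := by
  unfold seq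
  rw [e_fract]

theorem points_of {E : Set ℕ} {u : ℕ → ℤ} {S : Y → Y} {T : X → X}
    (hT : Continuous T) {π : X → Y} (hπ : Continuous π) (F : C(X, ℂ))
    (hs : MostShifts E u S Set.univ T π F) : MostPoints E u S T π F := by
  intro _ _ ε hε
  obtain ⟨⟨N₁, h1⟩, ⟨N₂, h2⟩, -⟩ := hs (ε / 2) (by positivity)
  refine ⟨N₁ + N₂ + 2, fun N hN ρ hρ hS => ⟨fun hNE => ?_, ?_⟩⟩
  · have hcont : ∀ n, Continuous fun q : X × ℝ => seq u q.2 T F q.1 n := by
      intro n
      unfold seq e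
      have := (hT.iterate n).comp (continuous_fst (X := X) (Y := ℝ))
      refine Continuous.mul ?_ (F.continuous.comp this)
      fun_prop
    exact meas_aux (S := S) hπ (h := fun x θ => ∑ n ∈ Icc 1 N, seq u θ T F x n)
      (continuous_finsetSum _ fun n _ => hcont n) (fun x θ => sum_congr rfl fun n _ => seq_fract u θ T F x n)
      (show (0 : ℝ) < N by exact_mod_cast (by omega : 0 < N)) hε N (by omega)
      (fun y => h1 N (by omega) hNE N le_rfl y (Set.mem_univ y)) hS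
  · have hcont : ∀ n : ℕ, Continuous fun q : X × ℝ => seq u q.2 T F q.1 n / n := by
      intro n
      unfold seq e
      have := (hT.iterate n).comp (continuous_fst (X := X) (Y := ℝ))
      refine Continuous.div_const (Continuous.mul ?_ (F.continuous.comp this)) _
      fun_prop
    exact meas_aux (S := S) hπ (h := fun x θ => ∑ n ∈ Icc 1 N, seq u θ T F x n / n)
      (continuous_finsetSum _ fun n _ => hcont n) (fun x θ => sum_congr rfl fun n _ => by rw [seq_fract])
      (Real.log_pos (by exact_mod_cast (by omega : 1 < N))) hε N (by omega)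
      (fun y => h2 N (by omega) N le_rfl y (Set.mem_univ y)) hS

theorem concl_of {E : Set ℕ} (hE : LogDensityZero E) (hmu : ∀ n, |mu n| ≤ 1) (hlam : ∀ n, |lam n| ≤ 1)
    (h1 : Kf mu E) (h2 : Kf lam E) {S : Y → Y} {P : Set Y} {T : X → X}
    (hT : Continuous T) {π : X → Y} (hπ : Continuous π) (hπT : ∀ x, π (T x) = S (π x)) (F : C(X, ℂ))
    (hF : SmallFibres S P T π F) : Conclusion E S P T π F := by
  refine ⟨shifts_of hE hmu h1 hT hπ hπT F hF, shifts_of hE hlam h2 hT hπ hπT F hF, fun hP => ?_⟩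
  subst hP
  exact ⟨points_of hT hπ F (shifts_of hE hmu h1 hT hπ hπT F hF), points_of hT hπ F (shifts_of hE hlam h2 hT hπ hπT F hF)⟩

end

theorem small_graph {Y Z : Type} [TopologicalSpace Y] [CompactSpace Y] [TopologicalSpace Z]
    [CompactSpace Z] [T2Space Z] (S : Y → Y) (P : Set Y) (f : Y → Z → Z) (hZ : FiniteGraph Z)
    (hf : ∀ y D, IsPreconnected D → IsPreconnected (f y ⁻¹' D)) (F : C(Y × Z, ℂ)) :
    SmallFibres S P (skew S f) Prod.fst F := by
  intro δ hδ
  obtain ⟨hZ1, hZ2⟩ := hZ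
  have _ := hZ1
  obtain ⟨H, hH, h1⟩ := cov_graph hZ2 S f hf F δ hδ
  exact ⟨H, hH, Set.univ, isClosed_univ, Mostly_univ hδ.le, fun y _ => h1 y⟩

theorem skew_cont {Y Z : Type} [TopologicalSpace Y] [TopologicalSpace Z] {S : Y → Y} (hS : Continuous S)
    {f : Y → Z → Z} (hf : Continuous (fun x : Y × Z => f x.1 x.2)) : Continuous (skew S f) :=
  (hS.comp continuous_fst).prodMk hf

theorem kf_of {E F : Set ℕ} {f : ℕ → ℤ} (h : ∀ h : ℕ, 1 ≤ h → ∀ ε : ℝ, 0 < ε → ∃ N₀ : ℕ, ∀ N : ℕ, N₀ ≤ N →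
    N ∉ E → ∀ α : ℝ, ‖Pool.Agent.Y842.PH.Cr f h N α‖ ≤ ε * N) (hEF : E ⊆ F) : Kf f F := by
  intro k hk ε hε
  obtain ⟨N₀, h1⟩ := h k hk ε hε
  exact ⟨N₀, fun N hN hNE => h1 N hN (fun h3 => hNE (hEF h3))⟩

/-- **Theorem.** There is one set `E` of logarithmic density zero such that (A), (B), (C) and (D) hold. -/
theorem result : ∃ E : Set ℕ, LogDensityZero E ∧ PartA E ∧ PartB E ∧ PartC E ∧ PartD E := by
  obtain ⟨E₁, hE₁, h1⟩ := Pool.Agent.Y842.PH.one_E (Pool.Agent.Y304.U.avc Pool.Agent.Y304.U.pw)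
    Pool.Agent.TH823.MRS.mob Pool.Agent.TH823.MRS.mob_bdd Pool.Agent.TH823.MRS.mob_flip
    Pool.Agent.TH823.MRS.expo_mob
  obtain ⟨E₂, hE₂, h2⟩ := Pool.Agent.Y842.PH.one_E (Pool.Agent.Y304.U.avc Pool.Agent.Y304.U.pw)
    Pool.Agent.H376R2.MR.lam Pool.Agent.Y842.EL.abs_lam Pool.Agent.TH823.MRS.lam_flip Pool.Agent.TH823.MRS.expo_lam
  have hE : LogDensityZero (E₁ ∪ E₂) := Pool.Agent.Y842.EL.LZ_union hE₁ hE₂
  have hmu : ∀ n, |mu n| ≤ 1 := fun n => ArithmeticFunction.abs_moebius_le_one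
  have hlam : ∀ n, |lam n| ≤ 1 := fun n => by
    unfold lam
    rw [abs_pow, abs_neg, abs_one, one_pow]
  have s1 : Kf mu (E₁ ∪ E₂) := kf_of h1 Set.subset_union_left
  have s2 : Kf lam (E₁ ∪ E₂) := kf_of h2 Set.subset_union_right
  refine ⟨E₁ ∪ E₂, hE, ?_, ?_, ?_, ?_⟩
  · intro X Y _ _ _ _ _ S P T π hT hπ hπT F hF
    exact concl_of hE hmu hlam s1 s2 hT hπ hπT F hF
  · intro X Y _ _ _ _ _ S P T π hT hπ hπT hN F
    exact concl_of hE hmu hlam s1 s2 hT hπ hπT F (fun δ hδ => cov_null hN F δ hδ)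
  · intro Y Z _ _ _ _ _ _ S f hZ hS hf hm F
    exact concl_of hE hmu hlam s1 s2 (skew_cont hS hf) continuous_fst (fun _ => rfl) F
      (small_graph S _ f hZ hm F)
  · intro Y _ _ _ S f hS hf hb F
    have hfy : ∀ y, Continuous (f y) := fun y => hf.comp (continuous_const.prodMk continuous_id)
    exact concl_of hE hmu hlam s1 s2 (skew_cont hS hf) continuous_fst (fun _ => rfl) F
      (small_graph S _ f ⟨locconn_circle, edges_circle⟩ (fun y D hD => pre_of_inj (hfy y) (hb y) D hD) F)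

end Pool.Agent.Results.MP_3e612f_nt.ArbitraryBase
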