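import Pool.Agent.R296.VC.Concl
import Pool.Agent.R296.VC.Ban

/-!
# The logarithmically averaged Sarnak conjecture for contraction cocycles (helper296)

Let `(Y, S)` be an almost periodic system, for example a rotation of a compact abelian group, and let `U(y)` be
contractions of a B-convex normed space (for example of a Hilbert space) which depend strongly continuously on `y`. They
act on `Y` times the unit ball of the dual, a compact space, by `T(y, ξ) = (S y, ξ ∘ U(y))`. All points of this system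
satisfy the conclusion of the logarithmically averaged Sarnak conjecture. For linear functions this says that the
averages of `μ(n) U(y) U(S y) ⋯ U(S^(n-1) y) g` tend to zero in norm, at every point `y`. With Koopman operators: the
averages of `μ(n) G(f_{S^(n-1) y} ⋯ f_y z)` tend to zero in quadratic mean over `z` for arbitrary measure preserving
maps `f_y` and every point `y`.
-/

set_option autoImplicit false

open Finset Filter Topology

namespace Pool.Agent.Results.MP_3e612f_nt.ContractionCocycles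

open Classical in
/-- `E` has logarithmic density zero -/
def LogDensityZero (E : Set ℕ) : Prop := Tendsto
  (fun X : ℕ => (∑ n ∈ Icc 1 X, if n ∈ E then (1 : ℝ) / n else 0) / Real.log X) atTop (𝓝 0)

/-- `e(x) = exp(2 π i x)` -/
noncomputable def e (x : ℝ) : ℂ := Complex.exp (2 * Real.pi * x * Complex.I)

/-- the Möbius function -/
def mu (n : ℕ) : ℤ := ArithmeticFunction.moebius n

/-- the Liouville function -/
def lam (n : ℕ) : ℤ := (-1) ^ ArithmeticFunction.cardFactors n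

/-- The orbits of the points of `P` are almost periodic at each scale, uniformly in the point: for every continuous
function `c` and every `ε > 0` there is `J` such that at every large scale `N` and for each `y` in `P` there are
`J` frequencies `α_j` and coefficients `ρ_j(n)`, bounded by `J` and of total variation at most `J` on `[0, N]`, with
`∑_{n < N} |c(Sⁿ y) - ∑_j ρ_j(n) e(α_j n)| ≤ ε N`; frequencies and coefficients may depend on `N` and `y`. -/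
def AlmostPeriodic {Y : Type} [TopologicalSpace Y] (S : Y → Y) (P : Set Y) : Prop :=
  ∀ c : C(Y, ℂ), ∀ ε : ℝ, 0 < ε → ∃ J N₀ : ℕ, ∀ N : ℕ, N₀ ≤ N → ∀ y ∈ P, ∃ (ρ : Fin J → ℕ → ℂ) (α : Fin J → ℝ),
    (∀ j n, ‖ρ j n‖ ≤ J) ∧ (∀ j, ∑ n ∈ range N, ‖ρ j (n + 1) - ρ j n‖ ≤ J) ∧
      ∑ n ∈ range N, ‖c (S^[n] y) - ∑ j, ρ j n * e (α j * n)‖ ≤ ε * N

/-- B-convexity: for each `κ > 0` there is `d` such that any `d` vectors of the unit ball have a combination with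
coefficients `±1` of norm less than `κ d` -/
def BConvex (B : Type) [NormedAddCommGroup B] [NormedSpace ℂ B] : Prop :=
  ∀ κ : ℝ, 0 < κ → ∃ d : ℕ, ∀ u : Fin d → B, (∀ i, ‖u i‖ ≤ 1) →
    ∃ s : Fin d → ℝ, (∀ i, s i = 1 ∨ s i = -1) ∧ ‖∑ i, (s i : ℂ) • u i‖ < κ * d

/-- the unit ball of the dual of `B`, as a subspace of the space of all functions with the product topology -/
def DualBall (B : Type) [NormedAddCommGroup B] [NormedSpace ℂ B] : Set (B → ℂ) :=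
  {ξ | (∀ g h, ξ (g + h) = ξ g + ξ h) ∧ (∀ (c : ℂ) g, ξ (c • g) = c * ξ g) ∧ ∀ g, ‖ξ g‖ ≤ ‖g‖}

/-- `T` is the map `T(y, ξ) = (S y, ξ ∘ U(y))` -/
def IsDualAction {Y B : Type} [NormedAddCommGroup B] [NormedSpace ℂ B] (S : Y → Y) (U : Y → B →ₗ[ℂ] B)
    (T : Y × DualBall B → Y × DualBall B) : Prop :=
  ∀ (y : Y) (ξ : DualBall B), (T (y, ξ)).1 = S y ∧ ∀ g, (T (y, ξ)).2.1 g = ξ.1 (U y g)

/-- the products `V_n(y) = U(y) U(S y) ⋯ U(S^(n-1) y)` -/
def product {Y B : Type} [NormedAddCommGroup B] [NormedSpace ℂ B] (S : Y → Y) (U : Y → B →ₗ[ℂ] B) :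
    ℕ → Y → B →ₗ[ℂ] B
  | 0, _ => LinearMap.id
  | n + 1, y => (product S U n y).comp (U (S^[n] y))

/-- the sequence `u(n) e(θ n) F(Tⁿ x)` -/
noncomputable def seq {X : Type} (u : ℕ → ℤ) (θ : ℝ) (T : X → X) (F : X → ℂ) (x : X) (n : ℕ) : ℂ :=
  (u n : ℂ) * e (θ * n) * F (T^[n] x)

/-- The function `F` on `Y × Z` is disjoint from `u`, uniformly over the points `(y, z)` with `y` in `P` and the
twists `θ`:
(1) `(1/N) ∑_{n ≤ N} u(n) e(θ n) F(Tⁿ(y, z)) → 0` for `N → ∞`, `N ∉ E`;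
(2) the same in short intervals `[n, n + H)`, on average over `n < N ∉ E`, where for each interval the point
`Tⁿ(y, z)` may be replaced by another point `(Sⁿ y, z_n)`;
(3) `(1/log N) ∑_{n ≤ N} u(n) e(θ n) F(Tⁿ(y, z)) / n → 0` for `N → ∞`. -/
def Disjoint' {Y Z : Type} (E : Set ℕ) (u : ℕ → ℤ) (S : Y → Y) (P : Set Y) (T : Y × Z → Y × Z) (F : Y × Z → ℂ) :
    Prop :=
  ∀ ε : ℝ, 0 < ε →
    (∃ N₀ : ℕ, ∀ N ≥ N₀, N ∉ E → ∀ y ∈ P, ∀ (z : Z) (θ : ℝ), ‖∑ n ∈ Icc 1 N, seq u θ T F (y, z) n‖ ≤ ε * N) ∧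
    (∃ H₀ : ℕ, ∀ H ≥ H₀, ∃ N₀ : ℕ, ∀ N ≥ N₀, N ∉ E → ∀ y ∈ P, ∀ (z : ℕ → Z) (θ : ℝ),
      ∑ n ∈ range N, ‖∑ m ∈ range H, (u (n + m) : ℂ) * e (θ * (n + m : ℕ)) * F (T^[m] (S^[n] y, z n))‖ ≤
        ε * (H * N)) ∧
    ∃ N₀ : ℕ, ∀ N ≥ N₀, ∀ y ∈ P, ∀ (z : Z) (θ : ℝ), ‖∑ n ∈ Icc 1 N, seq u θ T F (y, z) n / n‖ ≤ ε * Real.log N

/-- the conclusion of the logarithmically averaged Sarnak conjecture for the points `(y, z)` with `y` in `P` -/
def LogSarnak {Y Z : Type} (P : Set Y) (T : Y × Z → Y × Z) (F : Y × Z → ℂ) : Prop :=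
  ∀ y ∈ P, ∀ z : Z, Tendsto (fun N : ℕ => (1 / (Real.log (N : ℝ) : ℂ)) *
    ∑ n ∈ Icc 1 N, F (T^[n] (y, z)) * ((ArithmeticFunction.moebius n : ℤ) : ℂ) / (n : ℂ)) atTop (𝓝 0)

/-- The averages of `u(n) e(θ n) V_n(y) g` tend to zero in norm, uniformly over `y` in `P` and the twists `θ`: for
`N → ∞`, `N ∉ E`, in short intervals on average, and in logarithmic mean. -/
def NormDisjoint {Y B : Type} [NormedAddCommGroup B] [NormedSpace ℂ B] (E : Set ℕ) (u : ℕ → ℤ) (S : Y → Y)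
    (P : Set Y) (U : Y → B →ₗ[ℂ] B) (g : B) : Prop :=
  ∀ ε : ℝ, 0 < ε →
    (∃ N₀ : ℕ, ∀ N ≥ N₀, N ∉ E → ∀ y ∈ P, ∀ θ : ℝ,
      ‖∑ n ∈ Icc 1 N, ((u n : ℂ) * e (θ * n)) • product S U n y g‖ ≤ ε * N) ∧
    (∃ H₀ : ℕ, ∀ H ≥ H₀, ∃ N₀ : ℕ, ∀ N ≥ N₀, N ∉ E → ∀ y ∈ P, ∀ θ : ℝ,
      ∑ n ∈ range N, ‖∑ m ∈ range H, ((u (n + m) : ℂ) * e (θ * (n + m : ℕ))) • product S U m (S^[n] y) g‖ ≤
        ε * (H * N)) ∧
    ∃ N₀ : ℕ, ∀ N ≥ N₀, ∀ y ∈ P, ∀ θ : ℝ,
      ‖∑ n ∈ Icc 1 N, ((u n : ℂ) * e (θ * n) / n) • product S U n y g‖ ≤ ε * Real.log N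

/-- (A) almost periodic base, B-convex space: the system on `Y` times the dual ball, and the norm averages -/
def PartA (E : Set ℕ) : Prop :=
  ∀ (Y B : Type) [TopologicalSpace Y] [CompactSpace Y] [T2Space Y] [NormedAddCommGroup B] [NormedSpace ℂ B]
    (S : Y → Y) (P : Set Y) (U : Y → B →ₗ[ℂ] B), BConvex B → AlmostPeriodic S P → Continuous S →
    (∀ y g, ‖U y g‖ ≤ ‖g‖) → (∀ g, Continuous fun y => U y g) →
    (∃! T : Y × DualBall B → Y × DualBall B, IsDualAction S U T) ∧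
    (∀ T : Y × DualBall B → Y × DualBall B, IsDualAction S U T → Continuous T ∧ ∀ F : C(Y × DualBall B, ℂ),
      LogSarnak P T F ∧ Disjoint' E mu S P T F ∧ Disjoint' E lam S P T F) ∧
    ∀ g : B, NormDisjoint E mu S P U g ∧ NormDisjoint E lam S P U g

/-- (B) rotation of a compact abelian group, Hilbert space, all points -/
def PartB (E : Set ℕ) : Prop :=
  ∀ (Y B : Type) [CommGroup Y] [TopologicalSpace Y] [IsTopologicalGroup Y] [CompactSpace Y] [T2Space Y]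
    [NormedAddCommGroup B] [InnerProductSpace ℂ B] (a : Y) (U : Y → B →ₗ[ℂ] B), (∀ y g, ‖U y g‖ ≤ ‖g‖) →
    (∀ g, Continuous fun y => U y g) → ∀ g : B,
    NormDisjoint E mu (fun y => a * y) Set.univ U g ∧ NormDisjoint E lam (fun y => a * y) Set.univ U g

/-- the compositions `f_{S^(n-1) y} ∘ ⋯ ∘ f_{S y} ∘ f_y` -/
def fibreMap {Y Z : Type} (S : Y → Y) (f : Y → Z → Z) : ℕ → Y → Z → Z
  | 0, _ => id
  | n + 1, y => f (S^[n] y) ∘ fibreMap S f n y

/-- The averages of `u(n) e(θ n) G(f_{S^(n-1) y} ⋯ f_y z)` tend to zero in quadratic mean over `z`, uniformly over all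
points `y` and all twists `θ`: for `N → ∞`, `N ∉ E`, and in logarithmic mean. -/
def MeanDisjoint {Y Z : Type} [MeasurableSpace Z] (E : Set ℕ) (u : ℕ → ℤ) (S : Y → Y) (f : Y → Z → Z)
    (ν : MeasureTheory.Measure Z) (G : Z → ℂ) : Prop :=
  ∀ ε : ℝ, 0 < ε → ∃ N₀ : ℕ, ∀ N ≥ N₀, ∀ (y : Y) (θ : ℝ),
    (N ∉ E → MeasureTheory.eLpNorm (fun z => ∑ n ∈ Icc 1 N, (u n : ℂ) * e (θ * n) * G (fibreMap S f n y z)) 2 ν ≤
      ENNReal.ofReal (ε * N)) ∧
    MeasureTheory.eLpNorm (fun z => ∑ n ∈ Icc 1 N, (u n : ℂ) * e (θ * n) / n * G (fibreMap S f n y z)) 2 ν ≤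
      ENNReal.ofReal (ε * Real.log N)

/-- (C) rotation of a compact abelian group, measure preserving maps `f_y` of a measure space such that `G ∘ f_y`
depends continuously on `y` in quadratic mean, all points -/
def PartC (E : Set ℕ) : Prop :=
  ∀ (Y Z : Type) [CommGroup Y] [TopologicalSpace Y] [IsTopologicalGroup Y] [CompactSpace Y] [T2Space Y]
    [MeasurableSpace Z] (ν : MeasureTheory.Measure Z) (a : Y) (f : Y → Z → Z),
    (∀ y, MeasureTheory.MeasurePreserving (f y) ν ν) →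
    (∀ G : Z → ℂ, MeasureTheory.MemLp G 2 ν → ∀ y₀, Tendsto
      (fun y => MeasureTheory.eLpNorm (fun z => G (f y z) - G (f y₀ z)) 2 ν) (𝓝 y₀) (𝓝 0)) →
    ∀ G : Z → ℂ, MeasureTheory.MemLp G 2 ν →
      MeanDisjoint E mu (fun y => a * y) f ν G ∧ MeanDisjoint E lam (fun y => a * y) f ν G

open Pool.Agent.R296.RE Pool.Agent.R296.VC

section

open MeasureTheory

variable {Y Z : Type} [MeasurableSpace Z] {ν : Measure Z}

theorem fibreMap_mp {S : Y → Y} {f : Y → Z → Z} (hf : ∀ y, MeasurePreserving (f y) ν ν) (n : ℕ) (y : Y) :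
    MeasurePreserving (fibreMap S f n y) ν ν := by
  induction n with
  | zero => exact MeasurePreserving.id ν
  | succ n ih => exact (hf _).comp ih

/-- the Koopman operators -/
noncomputable def koop {f : Y → Z → Z} (hf : ∀ y, MeasurePreserving (f y) ν ν) (y : Y) :
    Lp ℂ 2 ν →ₗ[ℂ] Lp ℂ 2 ν := Lp.compMeasurePreservingₗ ℂ (f y) (hf y)

theorem koop_toLp {f : Y → Z → Z} (hf : ∀ y, MeasurePreserving (f y) ν ν) (y : Y) {G : Z → ℂ} (hG : MemLp G 2 ν) :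
    koop hf y (hG.toLp G) = (hG.comp_measurePreserving (hf y)).toLp (G ∘ f y) := rfl

theorem product_toLp (S : Y → Y) {f : Y → Z → Z} (hf : ∀ y, MeasurePreserving (f y) ν ν) (n : ℕ) (y : Y) :
    ∀ {G : Z → ℂ} (hG : MemLp G 2 ν), product S (koop hf) n y (hG.toLp G) =
      (hG.comp_measurePreserving (fibreMap_mp (S := S) hf n y)).toLp (G ∘ fibreMap S f n y) := by
  induction n with
  | zero => intro G hG; rfl
  | succ n ih =>
    intro G hG
    show product S (koop hf) n y (koop hf (S^[n] y) (hG.toLp G)) = _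
    rw [koop_toLp, ih]
    rfl

theorem sum_toLp (S : Y → Y) {f : Y → Z → Z} (hf : ∀ y, MeasurePreserving (f y) ν ν) (y : Y)
    {G : Z → ℂ} (hG : MemLp G 2 ν) (s : Finset ℕ) (c : ℕ → ℂ) :
    ∃ h : MemLp (fun z => ∑ n ∈ s, c n * G (fibreMap S f n y z)) 2 ν,
      ∑ n ∈ s, c n • product S (koop hf) n y (hG.toLp G) = h.toLp _ := by
  classical
  induction s using Finset.induction_on with
  | empty =>
    refine ⟨by simp, ?_⟩
    simp only [sum_empty]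
    rfl
  | insert a t ha ih =>
    obtain ⟨h, hh⟩ := ih
    have h1 : MemLp (G ∘ fibreMap S f a y) 2 ν := hG.comp_measurePreserving (fibreMap_mp hf a y)
    have h2 : MemLp (fun z => c a * G (fibreMap S f a y z)) 2 ν := h1.const_mul (c a)
    have h3 := h2.add h
    have e1 : (fun z => c a * G (fibreMap S f a y z)) + (fun z => ∑ n ∈ t, c n * G (fibreMap S f n y z)) =
        fun z => ∑ n ∈ insert a t, c n * G (fibreMap S f n y z) := by
      funext z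
      rw [sum_insert ha]
      rfl
    rw [e1] at h3
    refine ⟨h3, ?_⟩
    rw [sum_insert ha, hh, product_toLp]
    have e2 : h3.toLp _ = (h2.add h).toLp _ := by
      congr 1
      exact e1.symm
    rw [e2, MemLp.toLp_add h2 h]
    rfl

theorem mean_of {E : Set ℕ} {u : ℕ → ℤ} {S : Y → Y} {f : Y → Z → Z} (hf : ∀ y, MeasurePreserving (f y) ν ν)
    {G : Z → ℂ} (hG : MemLp G 2 ν) (h : NormDisjoint E u S Set.univ (koop hf) (hG.toLp G)) :
    MeanDisjoint E u S f ν G := by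
  intro ε hε
  obtain ⟨⟨N₁, h1⟩, -, ⟨N₃, h3⟩⟩ := h ε hε
  refine ⟨N₁ + N₃, fun N hN y θ => ⟨fun hNE => ?_, ?_⟩⟩
  · have h4 := h1 N (by omega) hNE y (Set.mem_univ _) θ
    obtain ⟨h5, h6⟩ := sum_toLp S hf y hG (Icc 1 N) (fun n => (u n : ℂ) * e (θ * n))
    rw [h6, Lp.norm_toLp] at h4
    exact (ENNReal.le_ofReal_iff_toReal_le h5.2.ne (by positivity)).2 h4
  · have h4 := h3 N (by omega) y (Set.mem_univ _) θ
    obtain ⟨h5, h6⟩ := sum_toLp S hf y hG (Icc 1 N) (fun n => (u n : ℂ) * e (θ * n) / n)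
    rw [h6, Lp.norm_toLp] at h4
    refine (ENNReal.le_ofReal_iff_toReal_le h5.2.ne ?_).2 h4
    exact mul_nonneg hε.le (Real.log_natCast_nonneg N)

theorem koop_cont [TopologicalSpace Y] {f : Y → Z → Z} (hf : ∀ y, MeasurePreserving (f y) ν ν)
    (hc : ∀ G : Z → ℂ, MemLp G 2 ν → ∀ y₀, Tendsto
      (fun y => eLpNorm (fun z => G (f y z) - G (f y₀ z)) 2 ν) (𝓝 y₀) (𝓝 0)) (g : Lp ℂ 2 ν) :
    Continuous fun y => koop hf y g := by
  have hg : (Lp.memLp g).toLp g = g := Lp.toLp_coeFn g _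
  rw [← hg, continuous_iff_continuousAt]
  intro y₀
  show Tendsto _ _ _
  rw [tendsto_iff_edist_tendsto_0]
  refine (hc g (Lp.memLp g) y₀).congr fun y => ?_
  show _ = edist (koop hf y ((Lp.memLp g).toLp g)) (koop hf y₀ ((Lp.memLp g).toLp g))
  rw [koop_toLp, koop_toLp, Lp.edist_toLp_toLp]
  rfl

end

theorem uap_of {Y : Type} [TopologicalSpace Y] {S : Y → Y} {P : Set Y} (h : AlmostPeriodic S P) (c : C(Y, ℂ)) :
    UAP {b | ∃ y ∈ P, b = fun n => c (S^[n] y)} := by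
  intro ε hε
  obtain ⟨J, N₀, h1⟩ := h c ε hε
  refine ⟨J, N₀, ?_⟩
  rintro N hN _ ⟨y, hy, rfl⟩
  exact h1 N hN y hy

theorem log_of {Y Z : Type} {E : Set ℕ} {S : Y → Y} {P : Set Y} {T : Y × Z → Y × Z} {F : Y × Z → ℂ}
    (h : Disjoint' E mu S P T F) : LogSarnak P T F := by
  intro y hy z
  rw [Metric.tendsto_atTop]
  intro ε hε
  obtain ⟨-, -, N₀, h1⟩ := h (ε / 2) (by positivity)
  refine ⟨max N₀ 2, fun N hN => ?_⟩
  have h2 := h1 N (le_trans (le_max_left _ _) hN) y hy z 0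
  have hlog : 0 < Real.log N := Real.log_pos (by
    have : 2 ≤ N := le_trans (le_max_right _ _) hN
    exact_mod_cast (by omega : 1 < N))
  have e1 : ∑ n ∈ Icc 1 N, seq mu 0 T F (y, z) n / n =
      ∑ n ∈ Icc 1 N, F (T^[n] (y, z)) * ((ArithmeticFunction.moebius n : ℤ) : ℂ) / (n : ℂ) := by
    refine sum_congr rfl fun n _ => ?_
    unfold seq e mu
    rw [zero_mul]
    simp only [Complex.ofReal_zero, mul_zero, zero_mul, Complex.exp_zero, mul_one]
    ring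
  rw [e1] at h2
  rw [dist_zero_right, norm_mul, norm_div, norm_one, Complex.norm_real, Real.norm_of_nonneg hlog.le,
    one_div, inv_mul_lt_iff₀ hlog]
  nlinarith

section

variable {Y B : Type} [NormedAddCommGroup B] [NormedSpace ℂ B]

theorem product_eq (S : Y → Y) (U : Y → B →ₗ[ℂ] B) (n : ℕ) (y : Y) : product S U n y = pV S U n y := by
  induction n with
  | zero => rfl
  | succ n ih =>
    show (product S U n y).comp (U (S^[n] y)) = (pV S U n y).comp (U (S^[n] y))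
    rw [ih]

theorem action_eq {S : Y → Y} {U : Y → B →ₗ[ℂ] B} (hU : ∀ y g, ‖U y g‖ ≤ ‖g‖)
    {T : Y × DualBall B → Y × DualBall B} (hT : IsDualAction S U T) : T = dstep S U hU := by
  funext x
  obtain ⟨h1, h2⟩ := hT x.1 x.2
  exact Prod.ext h1 (Subtype.ext (funext h2))

theorem action_dstep (S : Y → Y) (U : Y → B →ₗ[ℂ] B) (hU : ∀ y g, ‖U y g‖ ≤ ‖g‖) :
    IsDualAction S U (dstep S U hU) := fun _ _ => ⟨rfl, fun _ => rfl⟩

/-- a norming functional, as a point of the dual ball -/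
theorem norming (w : B) : ∃ ξ : DualBall B, ξ.1 w = ‖w‖ := by
  obtain ⟨g, hg1, hg2⟩ := exists_dual_vector'' ℂ w
  refine ⟨⟨fun v => g v, fun a b => map_add g a b, fun c a => by
    show g (c • a) = c * g a
    rw [map_smul, smul_eq_mul], fun a => ?_⟩, hg2⟩
  show ‖g a‖ ≤ ‖a‖
  calc ‖g a‖ ≤ ‖g‖ * ‖a‖ := g.le_opNorm a
    _ ≤ 1 * ‖a‖ := mul_le_mul_of_nonneg_right hg1 (norm_nonneg _)
    _ = ‖a‖ := one_mul _

theorem dual_sum (ξ : DualBall B) (s : Finset ℕ) (c : ℕ → ℂ) (v : ℕ → B) :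
    ξ.1 (∑ n ∈ s, c n • v n) = ∑ n ∈ s, c n * ξ.1 (v n) := by
  classical
  have h0 : ξ.1 0 = 0 := by
    have := ξ.2.2.2 0
    rw [norm_zero] at this
    exact norm_le_zero_iff.1 this
  induction s using Finset.induction_on with
  | empty => rw [sum_empty, sum_empty, h0]
  | insert a t ha ih => rw [sum_insert ha, sum_insert ha, ξ.2.1, ξ.2.2.1, ih]

variable [TopologicalSpace Y]

/-- evaluation at `g` -/
def evg (g : B) : C(Y × DualBall B, ℂ) :=
  ⟨fun x => x.2.1 g, (continuous_apply g).comp (continuous_subtype_val.comp continuous_snd)⟩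

theorem norm_of {E : Set ℕ} {u : ℕ → ℤ} {S : Y → Y} {P : Set Y} {U : Y → B →ₗ[ℂ] B} (hU : ∀ y g, ‖U y g‖ ≤ ‖g‖)
    {g : B} (h : Disjoint' E u S P (dstep S U hU) (evg g)) : NormDisjoint E u S P U g := by
  have hval : ∀ (n : ℕ) (y : Y) (ξ : DualBall B), evg g ((dstep S U hU)^[n] (y, ξ)) = ξ.1 (product S U n y g) := by
    intro n y ξ
    rw [product_eq]
    exact (dstep_iter S U hU n (y, ξ)).2 g
  intro ε hε
  obtain ⟨⟨N₁, h1⟩, ⟨H₂, h2⟩, ⟨N₃, h3⟩⟩ := h ε hε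
  refine ⟨⟨N₁, fun N hN hNE y hy θ => ?_⟩, ⟨H₂, fun H hH => ?_⟩, ⟨N₃, fun N hN y hy θ => ?_⟩⟩
  · obtain ⟨ξ, hξ⟩ := norming (∑ n ∈ Icc 1 N, ((u n : ℂ) * e (θ * n)) • product S U n y g)
    have h4 := h1 N hN hNE y hy ξ θ
    have e1 : ∑ n ∈ Icc 1 N, seq u θ (dstep S U hU) (evg g) (y, ξ) n =
        ((‖∑ n ∈ Icc 1 N, ((u n : ℂ) * e (θ * n)) • product S U n y g‖ : ℝ) : ℂ) := by
      rw [← hξ, dual_sum]
      refine sum_congr rfl fun n _ => ?_
      unfold seq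
      rw [hval]
    rw [e1, Complex.norm_real, norm_norm] at h4
    exact h4
  · obtain ⟨N₂, h4⟩ := h2 H hH
    refine ⟨N₂, fun N hN hNE y hy θ => ?_⟩
    choose ξ hξ using fun n : ℕ =>
      norming (∑ m ∈ range H, ((u (n + m) : ℂ) * e (θ * (n + m : ℕ))) • product S U m (S^[n] y) g)
    refine le_trans (le_of_eq ?_) (h4 N hN hNE y hy ξ θ)
    refine sum_congr rfl fun n _ => ?_
    have e1 : ∑ m ∈ range H, (u (n + m) : ℂ) * e (θ * (n + m : ℕ)) * evg g ((dstep S U hU)^[m] (S^[n] y, ξ n)) =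
        ((‖∑ m ∈ range H, ((u (n + m) : ℂ) * e (θ * (n + m : ℕ))) • product S U m (S^[n] y) g‖ : ℝ) : ℂ) := by
      rw [← hξ, dual_sum (ξ n) (range H) (fun m => (u (n + m) : ℂ) * e (θ * (n + m : ℕ)))
        (fun m => product S U m (S^[n] y) g)]
      refine sum_congr rfl fun m _ => ?_
      rw [hval]
    rw [e1, Complex.norm_real, norm_norm]
  · obtain ⟨ξ, hξ⟩ := norming (∑ n ∈ Icc 1 N, ((u n : ℂ) * e (θ * n) / n) • product S U n y g)
    have h4 := h3 N hN y hy ξ θ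
    have e1 : ∑ n ∈ Icc 1 N, seq u θ (dstep S U hU) (evg g) (y, ξ) n / n =
        ((‖∑ n ∈ Icc 1 N, ((u n : ℂ) * e (θ * n) / n) • product S U n y g‖ : ℝ) : ℂ) := by
      rw [← hξ, dual_sum]
      refine sum_congr rfl fun n _ => ?_
      unfold seq
      rw [hval]
      ring
    rw [e1, Complex.norm_real, norm_norm] at h4
    exact h4

theorem disj_of [CompactSpace Y] [T2Space Y] (hB : BConvex B)
    {E : Set ℕ} (hE : LogDensityZero E) {u : ℕ → ℤ} (hu : ∀ n, |u n| ≤ 1) (hK : Kf u E) {S : Y → Y}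
    (hS : Continuous S) {P : Set Y} (hAP : ∀ c : C(Y, ℂ), UAP {b | ∃ y ∈ P, b = fun n => c (S^[n] y)})
    (U : Y → B →ₗ[ℂ] B) (hU : ∀ y g, ‖U y g‖ ≤ ‖g‖) (hUc : ∀ g, Continuous fun y => U y g)
    (F : C(Y × DualBall B, ℂ)) : Disjoint' E u S P (dstep S U hU) F := by
  intro ε hε
  obtain ⟨⟨N₁, h1⟩, ⟨H₂, h2⟩, ⟨N₃, h3⟩⟩ := three_of_cov (X := Y × DBall B) hu hE hK hAP (dstep_cont hS hU hUc)
    (π := (Prod.fst : Y × DBall B → Y)) continuous_fst (fun _ => rfl) (F : C(Y × DBall B, ℂ)) (fun δ hδ => by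
      obtain ⟨H, hH, h⟩ := cov_ban hB S U hU (F : C(Y × DBall B, ℂ)) δ hδ
      exact ⟨H, hH, Set.univ, isClosed_univ, Mostly_univ hδ.le, fun y _ => h y⟩) ε hε
  refine ⟨⟨N₁, fun N hN hNE y hy z θ => h1 N hN hNE (y, z) hy θ⟩, ⟨H₂, fun H hH => ?_⟩,
    ⟨N₃, fun N hN y hy z θ => h3 N hN (y, z) hy θ⟩⟩
  obtain ⟨N₂, h4⟩ := h2 H hH
  exact ⟨N₂, fun N hN hNE y hy z θ => h4 N hN hNE y hy (fun n => (S^[n] y, z n)) (fun n => rfl) θ⟩

end

theorem kf_of {E F : Set ℕ} {f : ℕ → ℤ} (h : ∀ h : ℕ, 1 ≤ h → ∀ ε : ℝ, 0 < ε → ∃ N₀ : ℕ, ∀ N : ℕ, N₀ ≤ N →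
    N ∉ E → ∀ α : ℝ, ‖Pool.Agent.Y842.PH.Cr f h N α‖ ≤ ε * N) (hEF : E ⊆ F) : Kf f F := by
  intro k hk ε hε
  obtain ⟨N₀, h1⟩ := h k hk ε hε
  exact ⟨N₀, fun N hN hNE => h1 N hN (fun h3 => hNE (hEF h3))⟩

/-- **Theorem.** There is one set `E` of logarithmic density zero such that (A), (B) and (C) hold. -/
theorem result : ∃ E : Set ℕ, LogDensityZero E ∧ PartA E ∧ PartB E ∧ PartC E := by
  obtain ⟨E₁, hE₁, h1⟩ := Pool.Agent.Y842.PH.one_E (Pool.Agent.Y304.U.avc Pool.Agent.Y304.U.pw)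
    Pool.Agent.TH823.MRS.mob Pool.Agent.TH823.MRS.mob_bdd Pool.Agent.TH823.MRS.mob_flip
    Pool.Agent.TH823.MRS.expo_mob
  obtain ⟨E₂, hE₂, h2⟩ := Pool.Agent.Y842.PH.one_E (Pool.Agent.Y304.U.avc Pool.Agent.Y304.U.pw)
    Pool.Agent.H376R2.MR.lam Pool.Agent.Y842.EL.abs_lam Pool.Agent.TH823.MRS.lam_flip Pool.Agent.TH823.MRS.expo_lam
  have hE : LogDensityZero (E₁ ∪ E₂) := Pool.Agent.Y842.EL.LZ_union hE₁ hE₂
  have hmu : ∀ n, |mu n| ≤ 1 := fun n => ArithmeticFunction.abs_moebius_le_one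
  have hlam : ∀ n, |lam n| ≤ 1 := fun n => by
    unfold lam
    rw [abs_pow, abs_neg, abs_one, one_pow]
  have s1 : Kf mu (E₁ ∪ E₂) := kf_of h1 Set.subset_union_left
  have s2 : Kf lam (E₁ ∪ E₂) := kf_of h2 Set.subset_union_right
  have hB : PartB (E₁ ∪ E₂) := by
    intro Y B _ _ _ _ _ _ _ a U hU hUc g
    have hB : BConvex B := BConv_inner B
    exact ⟨norm_of hU (disj_of hB hE hmu s1 (continuous_const.mul continuous_id) (fun c => UAP_rot a _ c) U hU hUc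
      (evg g)), norm_of hU (disj_of hB hE hlam s2 (continuous_const.mul continuous_id) (fun c => UAP_rot a _ c) U hU
      hUc (evg g))⟩
  refine ⟨E₁ ∪ E₂, hE, ?_, hB, ?_⟩
  · intro Y B _ _ _ _ _ S P U hB hAP hS hU hUc
    have d1 := disj_of hB hE hmu s1 hS (uap_of hAP) U hU hUc
    have d2 := disj_of hB hE hlam s2 hS (uap_of hAP) U hU hUc
    refine ⟨⟨dstep S U hU, action_dstep S U hU, fun T hT => action_eq hU hT⟩, fun T hT => ?_, fun g => ?_⟩
    · rw [action_eq hU hT]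
      exact ⟨dstep_cont hS hU hUc, fun F => ⟨log_of (d1 F), d1 F, d2 F⟩⟩
    · exact ⟨norm_of hU (d1 (evg g)), norm_of hU (d2 (evg g))⟩
  · intro Y Z _ _ _ _ _ _ ν a f hf hc G hG
    obtain ⟨d1, d2⟩ := hB Y (MeasureTheory.Lp ℂ 2 ν) a (koop hf)
      (fun y g => (MeasureTheory.Lp.norm_compMeasurePreserving g (hf y)).le) (koop_cont hf hc) (hG.toLp G)
    exact ⟨mean_of hf hG d1, mean_of hf hG d2⟩

end Pool.Agent.Results.MP_3e612f_nt.ContractionCocycles
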