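import Pool.Agent.R296.VC.Concl
import Pool.Agent.R296.VC.Null
import Pool.Agent.R296.VC.Circ

/-!
# The logarithmically averaged Sarnak conjecture for extensions with fibres of small complexity (helper296)

Let `π : (X, T) → (Y, S)` be a factor map onto an almost periodic system, for example a rotation of a compact abelian
group. If most fibres of `π` are covered by `o(H)` balls in the mean metric of the orbits of length `H`, then all points
of `X` satisfy the conclusion of the logarithmically averaged Sarnak conjecture. This is the case if the extension is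
relatively null (two disjoint closed sets are independent along a fibre for boundedly many times only), in particular
for skew products with homeomorphisms, or monotone maps, of the circle or of any finite graph.
-/

set_option autoImplicit false

open Finset Filter Topology

namespace Pool.Agent.Results.MP_3e612f_nt.NullExtensions

open Classical in
/-- `E` has logarithmic density zero -/
def LogDensityZero (E : Set ℕ) : Prop := Tendsto
  (fun X : ℕ => (∑ n ∈ Icc 1 X, if n ∈ E then (1 : ℝ) / n else 0) / Real.log X) atTop (𝓝 0)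

/-- `e(x) = exp(2 π i x)` -/
noncomputable def e (x : ℝ) : ℂ := Complex.exp (2 * Real.pi * x * Complex.I)

/-- the Möbius function -/
def mu (n : ℕ) : ℤ := ArithmeticFunction.moebius n

/-- the Liouville function -/
def lam (n : ℕ) : ℤ := (-1) ^ ArithmeticFunction.cardFactors n

/-- The orbits of the points of `P` are almost periodic at each scale, uniformly in the point: for every continuous
function `c` and every `ε > 0` there is `J` such that at every large scale `N` and for each `y` in `P` there are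
`J` frequencies `α_j` and coefficients `ρ_j(n)`, bounded by `J` and of total variation at most `J` on `[0, N]`, with
`∑_{n < N} |c(Sⁿ y) - ∑_j ρ_j(n) e(α_j n)| ≤ ε N`; frequencies and coefficients may depend on `N` and `y`. -/
def AlmostPeriodic {Y : Type} [TopologicalSpace Y] (S : Y → Y) (P : Set Y) : Prop :=
  ∀ c : C(Y, ℂ), ∀ ε : ℝ, 0 < ε → ∃ J N₀ : ℕ, ∀ N : ℕ, N₀ ≤ N → ∀ y ∈ P, ∃ (ρ : Fin J → ℕ → ℂ) (α : Fin J → ℝ),
    (∀ j n, ‖ρ j n‖ ≤ J) ∧ (∀ j, ∑ n ∈ range N, ‖ρ j (n + 1) - ρ j n‖ ≤ J) ∧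
      ∑ n ∈ range N, ‖c (S^[n] y) - ∑ j, ρ j n * e (α j * n)‖ ≤ ε * N

/-- The orbits of the points of `P` are in `G` but for a proportion `δ` of the times, uniformly in the point. -/
def MostlyIn {Y : Type} (S : Y → Y) (P G : Set Y) (δ : ℝ) : Prop :=
  ∃ N₀ : ℕ, ∀ N ≥ N₀, ∀ y ∈ P, ∃ V : Finset ℕ, (∀ n < N, S^[n] y ∉ G → n ∈ V) ∧ (V.card : ℝ) ≤ δ * N

/-- Most fibres have sublinear complexity in the mean for the function `F`: for each `δ > 0` there are a length `H` and
a closed set `G` of base points, in which the orbits of `P` spend at least the proportion `1 - δ` of their time, such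
that the fibre over each point of `G` is covered by at most `δ H` balls of radius `δ` for the mean distance
`(1/H) ∑_{m < H} |F(T^m x) - F(T^m a)|`. -/
def SmallFibres {X Y : Type} [TopologicalSpace Y] (S : Y → Y) (P : Set Y) (T : X → X) (π : X → Y) (F : X → ℂ) :
    Prop :=
  ∀ δ : ℝ, 0 < δ → ∃ H : ℕ, 1 ≤ H ∧ ∃ G : Set Y, IsClosed G ∧ MostlyIn S P G δ ∧
    ∀ y ∈ G, ∃ A : Finset X, (A.card : ℝ) ≤ δ * H ∧ ∀ x, π x = y →
      ∃ a ∈ A, ∑ m ∈ range H, ‖F (T^[m] x) - F (T^[m] a)‖ ≤ δ * H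

/-- The extension is null relative to its base, over most points of the base: for disjoint closed sets `A`, `B` and each
`δ > 0` there are `d` and a closed set `G` of base points, in which the orbits of `P` spend at least the proportion
`1 - δ` of their time, such that for `y` in `G` and any times `m₁, …, m_d` some pattern `τ` of visits
(`T^(m_i) x ∈ A` if `τ_i` is true, `T^(m_i) x ∈ B` if not, for all `i`) is not realised in the fibre over `y`. -/
def RelativelyNull {X Y : Type} [TopologicalSpace X] [TopologicalSpace Y] (S : Y → Y) (P : Set Y) (T : X → X)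
    (π : X → Y) : Prop :=
  ∀ A B : Set X, IsClosed A → IsClosed B → Disjoint A B → ∀ δ : ℝ, 0 < δ → ∃ (d : ℕ) (G : Set Y), IsClosed G ∧
    MostlyIn S P G δ ∧ ∀ y ∈ G, ∀ m : Fin d → ℕ, ∃ τ : Fin d → Bool, ∀ x, π x = y →
      ∃ i, T^[m i] x ∉ (if τ i then A else B)

/-- a finite graph: locally connected, and but for finitely many points it is the union of finitely many open arcs -/
def FiniteGraph (Z : Type) [TopologicalSpace Z] : Prop :=
  LocallyConnectedSpace Z ∧ ∃ (k : ℕ) (γ : Fin k → ℝ → Z), (∀ i, Continuous (γ i)) ∧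
    (∀ i, Set.InjOn (γ i) (Set.Ioo 0 1)) ∧ (∀ i a b, 0 ≤ a → b ≤ 1 → IsOpen (γ i '' Set.Ioo a b)) ∧
    (⋃ i, γ i '' Set.Ioo 0 1)ᶜ.Finite

/-- the skew product `T(y, z) = (S y, f_y(z))` -/
def skew {Y Z : Type} (S : Y → Y) (f : Y → Z → Z) (x : Y × Z) : Y × Z := (S x.1, f x.1 x.2)

/-- the sequence `u(n) e(θ n) F(Tⁿ x)` -/
noncomputable def seq {X : Type} (u : ℕ → ℤ) (θ : ℝ) (T : X → X) (F : X → ℂ) (x : X) (n : ℕ) : ℂ :=
  (u n : ℂ) * e (θ * n) * F (T^[n] x)

/-- The function `F` is disjoint from `u`, uniformly over the points `x` of `X` above `P` and the twists `θ`: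
(1) `(1/N) ∑_{n ≤ N} u(n) e(θ n) F(Tⁿ x) → 0` for `N → ∞`, `N ∉ E`;
(2) the same in short intervals `[n, n + H)`, on average over `n < N ∉ E`, where for each interval the point may be
replaced by another point `x_n` of the fibre over `Sⁿ y`;
(3) `(1/log N) ∑_{n ≤ N} u(n) e(θ n) F(Tⁿ x) / n → 0` for `N → ∞`. -/
def Disjoint' {X Y : Type} (E : Set ℕ) (u : ℕ → ℤ) (S : Y → Y) (P : Set Y) (T : X → X) (π : X → Y) (F : X → ℂ) :
    Prop :=
  ∀ ε : ℝ, 0 < ε →
    (∃ N₀ : ℕ, ∀ N ≥ N₀, N ∉ E → ∀ x, π x ∈ P → ∀ θ : ℝ, ‖∑ n ∈ Icc 1 N, seq u θ T F x n‖ ≤ ε * N) ∧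
    (∃ H₀ : ℕ, ∀ H ≥ H₀, ∃ N₀ : ℕ, ∀ N ≥ N₀, N ∉ E → ∀ y ∈ P, ∀ x : ℕ → X, (∀ n, π (x n) = S^[n] y) → ∀ θ : ℝ,
      ∑ n ∈ range N, ‖∑ m ∈ range H, (u (n + m) : ℂ) * e (θ * (n + m : ℕ)) * F (T^[m] (x n))‖ ≤ ε * (H * N)) ∧
    ∃ N₀ : ℕ, ∀ N ≥ N₀, ∀ x, π x ∈ P → ∀ θ : ℝ, ‖∑ n ∈ Icc 1 N, seq u θ T F x n / n‖ ≤ ε * Real.log N

/-- the conclusion of the logarithmically averaged Sarnak conjecture for the points above `P` -/
def LogSarnak {X Y : Type} (P : Set Y) (T : X → X) (π : X → Y) (F : X → ℂ) : Prop :=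
  ∀ x, π x ∈ P → Tendsto (fun N : ℕ => (1 / (Real.log (N : ℝ) : ℂ)) *
    ∑ n ∈ Icc 1 N, F (T^[n] x) * ((ArithmeticFunction.moebius n : ℤ) : ℂ) / (n : ℂ)) atTop (𝓝 0)

/-- all conclusions -/
def Conclusion {X Y : Type} (E : Set ℕ) (S : Y → Y) (P : Set Y) (T : X → X) (π : X → Y) (F : X → ℂ) : Prop :=
  LogSarnak P T π F ∧ Disjoint' E mu S P T π F ∧ Disjoint' E lam S P T π F

/-- (A) almost periodic base, most fibres of sublinear complexity in the mean -/
def PartA (E : Set ℕ) : Prop :=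
  ∀ (X Y : Type) [TopologicalSpace X] [CompactSpace X] [TopologicalSpace Y] [CompactSpace Y] [T2Space Y]
    (S : Y → Y) (P : Set Y) (T : X → X) (π : X → Y), AlmostPeriodic S P → Continuous T → Continuous π →
    (∀ x, π (T x) = S (π x)) → ∀ F : C(X, ℂ), SmallFibres S P T π F → Conclusion E S P T π F

/-- (B) almost periodic base, relatively null extension -/
def PartB (E : Set ℕ) : Prop :=
  ∀ (X Y : Type) [TopologicalSpace X] [CompactSpace X] [TopologicalSpace Y] [CompactSpace Y] [T2Space Y]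
    (S : Y → Y) (P : Set Y) (T : X → X) (π : X → Y), AlmostPeriodic S P → Continuous T → Continuous π →
    (∀ x, π (T x) = S (π x)) → RelativelyNull S P T π → ∀ F : C(X, ℂ), Conclusion E S P T π F

/-- (C) almost periodic base, skew product with monotone maps (preimages of connected sets are connected) of a finite
graph -/
def PartC (E : Set ℕ) : Prop :=
  ∀ (Y Z : Type) [TopologicalSpace Y] [CompactSpace Y] [T2Space Y] [TopologicalSpace Z] [CompactSpace Z] [T2Space Z]
    (S : Y → Y) (P : Set Y) (f : Y → Z → Z), FiniteGraph Z → AlmostPeriodic S P → Continuous S →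
    Continuous (fun x : Y × Z => f x.1 x.2) → (∀ y D, IsPreconnected D → IsPreconnected (f y ⁻¹' D)) →
    ∀ F : C(Y × Z, ℂ), Conclusion E S P (skew S f) Prod.fst F

/-- (D) rotation of a compact abelian group, skew product with homeomorphisms of the circle, all points -/
def PartD (E : Set ℕ) : Prop :=
  ∀ (Y : Type) [CommGroup Y] [TopologicalSpace Y] [IsTopologicalGroup Y] [CompactSpace Y] [T2Space Y]
    (a : Y) (f : Y → AddCircle (1 : ℝ) → AddCircle (1 : ℝ)), Continuous (fun x : Y × AddCircle (1 : ℝ) => f x.1 x.2) →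
    (∀ y, Function.Bijective (f y)) → ∀ F : C(Y × AddCircle (1 : ℝ), ℂ),
    Conclusion E (fun y => a * y) Set.univ (skew (fun y => a * y) f) Prod.fst F

open Pool.Agent.R296.RE Pool.Agent.R296.VC

theorem uap_of {Y : Type} [TopologicalSpace Y] {S : Y → Y} {P : Set Y} (h : AlmostPeriodic S P) (c : C(Y, ℂ)) :
    UAP {b | ∃ y ∈ P, b = fun n => c (S^[n] y)} := by
  intro ε hε
  obtain ⟨J, N₀, h1⟩ := h c ε hε
  refine ⟨J, N₀, ?_⟩
  rintro N hN _ ⟨y, hy, rfl⟩
  exact h1 N hN y hy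

section

variable {X Y : Type}

theorem log_of {E : Set ℕ} {S : Y → Y} {P : Set Y} {T : X → X} {π : X → Y} {F : X → ℂ}
    (h : Disjoint' E mu S P T π F) : LogSarnak P T π F := by
  intro x hx
  rw [Metric.tendsto_atTop]
  intro ε hε
  obtain ⟨-, -, N₀, h1⟩ := h (ε / 2) (by positivity)
  refine ⟨max N₀ 2, fun N hN => ?_⟩
  have h2 := h1 N (le_trans (le_max_left _ _) hN) x hx 0
  have hlog : 0 < Real.log N := Real.log_pos (by
    have : 2 ≤ N := le_trans (le_max_right _ _) hN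
    exact_mod_cast (by omega : 1 < N))
  have e1 : ∑ n ∈ Icc 1 N, seq mu 0 T F x n / n =
      ∑ n ∈ Icc 1 N, F (T^[n] x) * ((ArithmeticFunction.moebius n : ℤ) : ℂ) / (n : ℂ) := by
    refine sum_congr rfl fun n _ => ?_
    unfold seq e mu
    rw [zero_mul]
    simp only [Complex.ofReal_zero, mul_zero, zero_mul, Complex.exp_zero, mul_one]
    ring
  rw [e1] at h2
  rw [dist_zero_right, norm_mul, norm_div, norm_one, Complex.norm_real, Real.norm_of_nonneg hlog.le,
    one_div, inv_mul_lt_iff₀ hlog]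
  nlinarith

variable [TopologicalSpace X] [CompactSpace X] [TopologicalSpace Y] [CompactSpace Y] [T2Space Y]

theorem disj_of {E : Set ℕ} (hE : LogDensityZero E) {u : ℕ → ℤ} (hu : ∀ n, |u n| ≤ 1) (hK : Kf u E) {S : Y → Y}
    {P : Set Y} (hAP : ∀ c : C(Y, ℂ), UAP {b | ∃ y ∈ P, b = fun n => c (S^[n] y)}) {T : X → X}
    (hT : Continuous T) {π : X → Y} (hπ : Continuous π) (hπT : ∀ x, π (T x) = S (π x)) (F : C(X, ℂ))
    (hF : SmallFibres S P T π F) : Disjoint' E u S P T π F := by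
  intro ε hε
  exact three_of_cov hu hE hK hAP hT hπ hπT F hF ε hε

theorem concl_of {E : Set ℕ} (hE : LogDensityZero E) (hmu : ∀ n, |mu n| ≤ 1) (hlam : ∀ n, |lam n| ≤ 1)
    (h1 : Kf mu E) (h2 : Kf lam E) {S : Y → Y}
    {P : Set Y} (hAP : ∀ c : C(Y, ℂ), UAP {b | ∃ y ∈ P, b = fun n => c (S^[n] y)}) {T : X → X}
    (hT : Continuous T) {π : X → Y} (hπ : Continuous π) (hπT : ∀ x, π (T x) = S (π x)) (F : C(X, ℂ))
    (hF : SmallFibres S P T π F) : Conclusion E S P T π F :=
  ⟨log_of (disj_of hE hmu h1 hAP hT hπ hπT F hF), disj_of hE hmu h1 hAP hT hπ hπT F hF,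
    disj_of hE hlam h2 hAP hT hπ hπT F hF⟩

end

theorem small_graph {Y Z : Type} [TopologicalSpace Y] [CompactSpace Y] [TopologicalSpace Z]
    [CompactSpace Z] [T2Space Z] (S : Y → Y) (P : Set Y) (f : Y → Z → Z) (hZ : FiniteGraph Z)
    (hf : ∀ y D, IsPreconnected D → IsPreconnected (f y ⁻¹' D)) (F : C(Y × Z, ℂ)) :
    SmallFibres S P (skew S f) Prod.fst F := by
  intro δ hδ
  obtain ⟨hZ1, hZ2⟩ := hZ
  have _ := hZ1
  obtain ⟨H, hH, h1⟩ := cov_graph hZ2 S f hf F δ hδ
  exact ⟨H, hH, Set.univ, isClosed_univ, Mostly_univ hδ.le, fun y _ => h1 y⟩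

theorem skew_cont {Y Z : Type} [TopologicalSpace Y] [TopologicalSpace Z] {S : Y → Y} (hS : Continuous S)
    {f : Y → Z → Z} (hf : Continuous (fun x : Y × Z => f x.1 x.2)) : Continuous (skew S f) :=
  (hS.comp continuous_fst).prodMk hf

theorem kf_of {E F : Set ℕ} {f : ℕ → ℤ} (h : ∀ h : ℕ, 1 ≤ h → ∀ ε : ℝ, 0 < ε → ∃ N₀ : ℕ, ∀ N : ℕ, N₀ ≤ N →
    N ∉ E → ∀ α : ℝ, ‖Pool.Agent.Y842.PH.Cr f h N α‖ ≤ ε * N) (hEF : E ⊆ F) : Kf f F := by
  intro k hk ε hε
  obtain ⟨N₀, h1⟩ := h k hk ε hε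
  exact ⟨N₀, fun N hN hNE => h1 N hN (fun h3 => hNE (hEF h3))⟩

/-- **Theorem.** There is one set `E` of logarithmic density zero such that (A), (B), (C) and (D) hold. -/
theorem result : ∃ E : Set ℕ, LogDensityZero E ∧ PartA E ∧ PartB E ∧ PartC E ∧ PartD E := by
  obtain ⟨E₁, hE₁, h1⟩ := Pool.Agent.Y842.PH.one_E (Pool.Agent.Y304.U.avc Pool.Agent.Y304.U.pw)
    Pool.Agent.TH823.MRS.mob Pool.Agent.TH823.MRS.mob_bdd Pool.Agent.TH823.MRS.mob_flip
    Pool.Agent.TH823.MRS.expo_mob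
  obtain ⟨E₂, hE₂, h2⟩ := Pool.Agent.Y842.PH.one_E (Pool.Agent.Y304.U.avc Pool.Agent.Y304.U.pw)
    Pool.Agent.H376R2.MR.lam Pool.Agent.Y842.EL.abs_lam Pool.Agent.TH823.MRS.lam_flip Pool.Agent.TH823.MRS.expo_lam
  have hE : LogDensityZero (E₁ ∪ E₂) := Pool.Agent.Y842.EL.LZ_union hE₁ hE₂
  have hmu : ∀ n, |mu n| ≤ 1 := fun n => ArithmeticFunction.abs_moebius_le_one
  have hlam : ∀ n, |lam n| ≤ 1 := fun n => by
    unfold lam
    rw [abs_pow, abs_neg, abs_one, one_pow]
  have s1 : Kf mu (E₁ ∪ E₂) := kf_of h1 Set.subset_union_left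
  have s2 : Kf lam (E₁ ∪ E₂) := kf_of h2 Set.subset_union_right
  refine ⟨E₁ ∪ E₂, hE, ?_, ?_, ?_, ?_⟩
  · intro X Y _ _ _ _ _ S P T π hAP hT hπ hπT F hF
    exact concl_of hE hmu hlam s1 s2 (uap_of hAP) hT hπ hπT F hF
  · intro X Y _ _ _ _ _ S P T π hAP hT hπ hπT hN F
    exact concl_of hE hmu hlam s1 s2 (uap_of hAP) hT hπ hπT F (fun δ hδ => cov_null hN F δ hδ)
  · intro Y Z _ _ _ _ _ _ S P f hZ hAP hS hf hm F
    exact concl_of hE hmu hlam s1 s2 (uap_of hAP) (skew_cont hS hf) continuous_fst (fun _ => rfl) F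
      (small_graph S P f hZ hm F)
  · intro Y _ _ _ _ _ a f hf hb F
    have hfy : ∀ y, Continuous (f y) := fun y => hf.comp (continuous_const.prodMk continuous_id)
    exact concl_of hE hmu hlam s1 s2 (fun c => UAP_rot a _ c) (skew_cont (continuous_const.mul continuous_id) hf)
      continuous_fst (fun _ => rfl) F
      (small_graph (fun y => a * y) _ f ⟨locconn_circle, edges_circle⟩ (fun y D hD => pre_of_inj (hfy y) (hb y) D hD) F)

end Pool.Agent.Results.MP_3e612f_nt.NullExtensions
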