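import Pool.Agent.R296.RE.Ext

/-!
# The logarithmically averaged Sarnak conjecture for extensions by cocycles of sublinear range (helper296)

Let `(Y, S)` be an almost periodic system, for example a rotation of a compact abelian group, `G` any locally compact
group which acts continuously on a compact space `Z`, `φ : Y → G` continuous and `T(y, z) = (S y, φ(y) z)`. If the
products `φ(S^(m-1) y) ⋯ φ(y)`, `m < H`, are covered by `o(H)` translates of a compact set, then all sequences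
`F(Tⁿ(y, z))` are orthogonal to the Möbius function in logarithmic mean, and in the mean at almost all scales. The
action of `G` on `Z` is arbitrary; it may have positive entropy. A special case: `G = ℝ`, `Z` with an arbitrary flow,
`φ : Y → ℝ` of mean zero.
-/

set_option autoImplicit false

open Finset Filter Topology

namespace Pool.Agent.Results.MP_3e612f_nt.RecurrentExtensions

open Classical in
/-- `E` has logarithmic density zero -/
def LogDensityZero (E : Set ℕ) : Prop := Tendsto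
  (fun X : ℕ => (∑ n ∈ Icc 1 X, if n ∈ E then (1 : ℝ) / n else 0) / Real.log X) atTop (𝓝 0)

/-- `e(x) = exp(2 π i x)` -/
noncomputable def e (x : ℝ) : ℂ := Complex.exp (2 * Real.pi * x * Complex.I)

/-- the Möbius function -/
def mu (n : ℕ) : ℤ := ArithmeticFunction.moebius n

/-- the Liouville function -/
def lam (n : ℕ) : ℤ := (-1) ^ ArithmeticFunction.cardFactors n

/-- The orbits of the points of `P` are almost periodic at each scale, uniformly in the point: for every continuous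
function `c` and every `ε > 0` there is `J` such that at every large scale `N` and for each `y` in `P` there are
`J` frequencies `α_j` and coefficients `ρ_j(n)`, bounded by `J` and of total variation at most `J` on `[0, N]`, with
`∑_{n < N} |c(Sⁿ y) - ∑_j ρ_j(n) e(α_j n)| ≤ ε N`; frequencies and coefficients may depend on `N` and `y`. -/
def AlmostPeriodic {Y : Type} [TopologicalSpace Y] (S : Y → Y) (P : Set Y) : Prop :=
  ∀ c : C(Y, ℂ), ∀ ε : ℝ, 0 < ε → ∃ J N₀ : ℕ, ∀ N : ℕ, N₀ ≤ N → ∀ y ∈ P, ∃ (ρ : Fin J → ℕ → ℂ) (α : Fin J → ℝ),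
    (∀ j n, ‖ρ j n‖ ≤ J) ∧ (∀ j, ∑ n ∈ range N, ‖ρ j (n + 1) - ρ j n‖ ≤ J) ∧
      ∑ n ∈ range N, ‖c (S^[n] y) - ∑ j, ρ j n * e (α j * n)‖ ≤ ε * N

/-- the product `φ(S^(n-1) y) ⋯ φ(S y) φ(y)` -/
def product {Y G : Type} [Group G] (S : Y → Y) (φ : Y → G) : ℕ → Y → G
  | 0, _ => 1
  | n + 1, y => φ (S^[n] y) * product S φ n y

/-- The range of the cocycle is sublinear along the orbits of the points of `P`: for some compact `K` and each `ε > 0`
the products `g = φ(S^(n+m-1) y) ⋯ φ(S^n y)`, `m < H`, are covered by at most `ε H` sets `K a⁻¹`, for all large `H`,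
all `n` and all `y` in `P`. -/
def SublinearRange {Y G : Type} [Group G] [TopologicalSpace G] (S : Y → Y) (φ : Y → G) (P : Set Y) : Prop :=
  ∃ K : Set G, IsCompact K ∧ ∀ ε : ℝ, 0 < ε → ∃ H₀ : ℕ, ∀ H ≥ H₀, ∀ y ∈ P, ∀ n : ℕ,
    ∃ A : Finset G, (A.card : ℝ) ≤ ε * H ∧ ∀ m < H, ∃ a ∈ A, product S φ m (S^[n] y) * a ∈ K

/-- the extension `T(y, z) = (S y, φ(y) z)` -/
def extension {Y G Z : Type} [SMul G Z] (S : Y → Y) (φ : Y → G) (x : Y × Z) : Y × Z := (S x.1, φ x.1 • x.2)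

/-- the extension `T(y, z) = (S y, R_t z)`, `t = φ(y)`, for a flow `R` -/
def flowExtension {Y Z : Type} [TopologicalSpace Z] (S : Y → Y) (φ : Y → ℝ) (R : Flow ℝ Z) (x : Y × Z) : Y × Z :=
  (S x.1, R (φ x.1) x.2)

/-- the sequence `u(n) e(θ n) F(Tⁿ x)` -/
noncomputable def seq {X : Type} (u : ℕ → ℤ) (θ : ℝ) (T : X → X) (F : X → ℂ) (x : X) (n : ℕ) : ℂ :=
  (u n : ℂ) * e (θ * n) * F (T^[n] x)

/-- The function `F` is disjoint from `u` for the map `T` of `Y × Z`, uniformly over the points `(y, z)` with `y` in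
`P` and the twists `θ`:
(1) `(1/N) ∑_{n ≤ N} u(n) e(θ n) F(Tⁿ(y, z)) → 0` for `N → ∞`, `N ∉ E`;
(2) the same in short intervals of length `H`, on average over the intervals up to `N ∉ E`, where the point `z` may
change with the interval;
(3) `(1/log N) ∑_{n ≤ N} u(n) e(θ n) F(Tⁿ(y, z)) / n → 0` for `N → ∞`. -/
def Disjoint' {Y Z : Type} (E : Set ℕ) (u : ℕ → ℤ) (T : Y × Z → Y × Z) (P : Set Y) (F : Y × Z → ℂ) : Prop :=
  ∀ ε : ℝ, 0 < ε →
    (∃ N₀ : ℕ, ∀ N ≥ N₀, N ∉ E → ∀ y ∈ P, ∀ (z : Z) (θ : ℝ), ‖∑ n ∈ Icc 1 N, seq u θ T F (y, z) n‖ ≤ ε * N) ∧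
    (∃ H₀ : ℕ, ∀ H ≥ H₀, ∃ N₀ : ℕ, ∀ N ≥ N₀, N ∉ E → ∀ y ∈ P, ∀ (z : ℕ → Z) (θ : ℝ),
      ∑ n ∈ Icc 1 N, ‖∑ m ∈ Icc 1 H, seq u θ T F (y, z n) (n + m)‖ ≤ ε * (H * N)) ∧
    ∃ N₀ : ℕ, ∀ N ≥ N₀, ∀ y ∈ P, ∀ (z : Z) (θ : ℝ), ‖∑ n ∈ Icc 1 N, seq u θ T F (y, z) n / n‖ ≤ ε * Real.log N

/-- the conclusion of the logarithmically averaged Sarnak conjecture for the points `(y, z)` with `y` in `P` -/
def LogSarnak {Y Z : Type} (T : Y × Z → Y × Z) (P : Set Y) (F : Y × Z → ℂ) : Prop :=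
  ∀ y ∈ P, ∀ z : Z, Tendsto (fun N : ℕ => (1 / (Real.log (N : ℝ) : ℂ)) *
    ∑ n ∈ Icc 1 N, F (T^[n] (y, z)) * ((ArithmeticFunction.moebius n : ℤ) : ℂ) / (n : ℂ)) atTop (𝓝 0)

/-- all conclusions -/
def Conclusion {Y Z : Type} (E : Set ℕ) (T : Y × Z → Y × Z) (P : Set Y) (F : Y × Z → ℂ) : Prop :=
  LogSarnak T P F ∧ Disjoint' E mu T P F ∧ Disjoint' E lam T P F

/-- (A) almost periodic base, arbitrary locally compact group, cocycle with sublinear range -/
def PartA (E : Set ℕ) : Prop :=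
  ∀ (Y G Z : Type) [TopologicalSpace Y] [CompactSpace Y] [Group G] [TopologicalSpace G] [IsTopologicalGroup G]
    [T2Space G] [LocallyCompactSpace G] [TopologicalSpace Z] [CompactSpace Z] [MulAction G Z] [ContinuousSMul G Z]
    (S : Y → Y) (φ : Y → G) (P : Set Y), Continuous S → Continuous φ → AlmostPeriodic S P → SublinearRange S φ P →
    ∀ F : C(Y × Z, ℂ), Conclusion E (extension S φ) P F

/-- (B) rotation of a compact abelian group, `G` a locally compact group with a proper continuous homomorphism `ℓ` to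
the real line (for example `ℝ`, `ℤ`, compact groups, `ℝ × K` with `K` compact), all points `y` for which `ℓ(φ)` has
mean zero along the orbit -/
def PartB (E : Set ℕ) : Prop :=
  ∀ (Y G Z : Type) [CommGroup Y] [TopologicalSpace Y] [IsTopologicalGroup Y] [CompactSpace Y] [T2Space Y]
    [Group G] [TopologicalSpace G] [IsTopologicalGroup G] [T2Space G] [LocallyCompactSpace G]
    [TopologicalSpace Z] [CompactSpace Z] [MulAction G Z] [ContinuousSMul G Z] (a : Y) (φ : Y → G) (ℓ : G → ℝ),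
    Continuous φ → Continuous ℓ → (∀ g h, ℓ (g * h) = ℓ g + ℓ h) → IsCompact {g | |ℓ g| ≤ 1} →
    ∀ F : C(Y × Z, ℂ), Conclusion E (extension (fun y => a * y) φ)
      {y | Tendsto (fun N : ℕ => (1 / (N : ℝ)) * ∑ n ∈ range N, ℓ (φ (a ^ n * y))) atTop (𝓝 0)} F

/-- (C) rotation of a compact abelian group, arbitrary flow on a compact space, all points `y` for which `φ` has mean
zero along the orbit -/
def PartC (E : Set ℕ) : Prop :=
  ∀ (Y Z : Type) [CommGroup Y] [TopologicalSpace Y] [IsTopologicalGroup Y] [CompactSpace Y] [T2Space Y]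
    [TopologicalSpace Z] [CompactSpace Z] (a : Y) (φ : Y → ℝ) (R : Flow ℝ Z), Continuous φ →
    ∀ F : C(Y × Z, ℂ), Conclusion E (flowExtension (fun y => a * y) φ R)
      {y | Tendsto (fun N : ℕ => (1 / (N : ℝ)) * ∑ n ∈ range N, φ (a ^ n * y)) atTop (𝓝 0)} F

open Pool.Agent.R296.RE

theorem product_eq {Y G : Type} [Group G] (S : Y → Y) (φ : Y → G) (n : ℕ) (y : Y) :
    product S φ n y = prods S φ n y := by
  induction n with
  | zero => rfl
  | succ n ih =>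
    show φ (S^[n] y) * product S φ n y = φ (S^[n] y) * prods S φ n y
    rw [ih]

theorem e_eq (x : ℝ) : e x = Pool.Agent.Helper602.MK.ee x := rfl

theorem uap_of {Y : Type} [TopologicalSpace Y] {S : Y → Y} {P : Set Y} (h : AlmostPeriodic S P) (c : C(Y, ℂ)) :
    UAP {b | ∃ y ∈ P, b = fun n => c (S^[n] y)} := by
  intro ε hε
  obtain ⟨J, N₀, h1⟩ := h c ε hε
  refine ⟨J, N₀, ?_⟩
  rintro N hN _ ⟨y, hy, rfl⟩
  exact h1 N hN y hy

theorem sub_of {Y G : Type} [Group G] [TopologicalSpace G] {S : Y → Y} {φ : Y → G} {P : Set Y}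
    (h : SublinearRange S φ P) : Sub S φ P := by
  obtain ⟨K, hK, h1⟩ := h
  refine ⟨K, hK, fun ε hε => ?_⟩
  obtain ⟨H₀, h2⟩ := h1 ε hε
  refine ⟨H₀, fun H hH y hy n => ?_⟩
  obtain ⟨A, hA, h3⟩ := h2 H hH y hy n
  refine ⟨A, hA, fun m hm => ?_⟩
  obtain ⟨a, ha, h4⟩ := h3 m hm
  rw [product_eq] at h4
  exact ⟨a, ha, h4⟩

section

variable {Y G Z : Type} [TopologicalSpace Y] [CompactSpace Y] [Group G] [TopologicalSpace G] [IsTopologicalGroup G]
  [T2Space G] [LocallyCompactSpace G] [TopologicalSpace Z] [CompactSpace Z] [MulAction G Z] [ContinuousSMul G Z]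

omit [CompactSpace Y] [IsTopologicalGroup G] [T2Space G] [LocallyCompactSpace G] in
theorem seq_eq (u : ℕ → ℤ) (θ : ℝ) (S : Y → Y) (φ : Y → G) (F : C(Y × Z, ℂ)) (y : Y) (z : Z) (n : ℕ) :
    seq u θ (extension S φ) F (y, z) n = (tw u θ n • cRep.Q (prods S φ n y) (F.curry (S^[n] y))) z := by
  unfold seq
  have h : (extension S φ)^[n] (y, z) = (S^[n] y, prods S φ n y • z) := ext_iterate S φ y z n
  rw [h]
  rfl

theorem disj_of {E : Set ℕ} (hE : LogDensityZero E) {u : ℕ → ℤ} (hu : ∀ n, |u n| ≤ 1) (hK : Kf u E) {S : Y → Y}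
    (hS : Continuous S) {φ : Y → G} (hφ : Continuous φ) {P : Set Y}
    (hAP : ∀ c : C(Y, ℂ), UAP {b | ∃ y ∈ P, b = fun n => c (S^[n] y)}) (hR : Sub S φ P) (F : C(Y × Z, ℂ)) :
    Disjoint' E u (extension S φ) P F := by
  intro ε hε
  obtain ⟨⟨N₁, h1⟩, ⟨H₂, h2⟩, ⟨N₃, h3⟩⟩ := fam_three hu hE hK hS hφ hAP hR F ε hε
  refine ⟨⟨N₁, fun N hN hNE y hy z θ => ?_⟩, ⟨H₂, fun H hH => ?_⟩, ⟨N₃, fun N hN y hy z θ => ?_⟩⟩
  · refine le_trans ?_ (h1 N hN hNE _ ⟨y, hy, θ, rfl⟩)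
    refine le_trans (le_of_eq ?_) (ContinuousMap.norm_coe_le_norm _ z)
    rw [ContinuousMap.coe_sum, Finset.sum_apply]
    congr 1
    exact sum_congr rfl fun n _ => seq_eq u θ S φ F y z n
  · obtain ⟨N₂, h4⟩ := h2 H hH
    refine ⟨N₂, fun N hN hNE y hy z θ => ?_⟩
    refine le_trans (sum_le_sum fun n _ => ?_) (h4 N hN hNE _ ⟨y, hy, θ, rfl⟩)
    refine le_trans (le_of_eq ?_) (ContinuousMap.norm_coe_le_norm _ (z n))
    rw [ContinuousMap.coe_sum, Finset.sum_apply]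
    congr 1
    exact sum_congr rfl fun m _ => seq_eq u θ S φ F y (z n) (n + m)
  · refine le_trans ?_ (h3 N hN _ ⟨y, hy, θ, rfl⟩)
    refine le_trans (le_of_eq ?_) (ContinuousMap.norm_coe_le_norm _ z)
    rw [ContinuousMap.coe_sum, Finset.sum_apply]
    congr 1
    refine sum_congr rfl fun n _ => ?_
    rw [seq_eq u θ S φ F y z n, div_eq_mul_inv, mul_comm, ← one_div]
    rfl

omit [TopologicalSpace Y] [CompactSpace Y] [TopologicalSpace Z] [CompactSpace Z] in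
theorem log_of {E : Set ℕ} {T : Y × Z → Y × Z} {P : Set Y} {F : Y × Z → ℂ} (h : Disjoint' E mu T P F) :
    LogSarnak T P F := by
  intro y hy z
  rw [Metric.tendsto_atTop]
  intro ε hε
  obtain ⟨-, -, N₀, h1⟩ := h (ε / 2) (by positivity)
  refine ⟨max N₀ 2, fun N hN => ?_⟩
  have h2 := h1 N (le_trans (le_max_left _ _) hN) y hy z 0
  have hlog : 0 < Real.log N := Real.log_pos (by
    have : 2 ≤ N := le_trans (le_max_right _ _) hN
    exact_mod_cast (by omega : 1 < N))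
  have e1 : ∑ n ∈ Icc 1 N, seq mu 0 T F (y, z) n / n =
      ∑ n ∈ Icc 1 N, F (T^[n] (y, z)) * ((ArithmeticFunction.moebius n : ℤ) : ℂ) / (n : ℂ) := by
    refine sum_congr rfl fun n _ => ?_
    unfold seq e mu
    rw [zero_mul]
    simp only [Complex.ofReal_zero, mul_zero, zero_mul, Complex.exp_zero, mul_one]
    ring
  rw [e1] at h2
  rw [dist_zero_right, norm_mul, norm_div, norm_one, Complex.norm_real, Real.norm_of_nonneg hlog.le,
    one_div, inv_mul_lt_iff₀ hlog]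
  nlinarith

theorem concl_of {E : Set ℕ} (hE : LogDensityZero E) (hmu : ∀ n, |mu n| ≤ 1) (hlam : ∀ n, |lam n| ≤ 1)
    (h1 : Kf mu E) (h2 : Kf lam E) {S : Y → Y} (hS : Continuous S) {φ : Y → G} (hφ : Continuous φ) {P : Set Y}
    (hAP : ∀ c : C(Y, ℂ), UAP {b | ∃ y ∈ P, b = fun n => c (S^[n] y)}) (hR : Sub S φ P) (F : C(Y × Z, ℂ)) :
    Conclusion E (extension S φ) P F :=
  ⟨log_of (disj_of hE hmu h1 hS hφ hAP hR F), disj_of hE hmu h1 hS hφ hAP hR F, disj_of hE hlam h2 hS hφ hAP hR F⟩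

end

theorem kf_of {E F : Set ℕ} {f : ℕ → ℤ} (h : ∀ h : ℕ, 1 ≤ h → ∀ ε : ℝ, 0 < ε → ∃ N₀ : ℕ, ∀ N : ℕ, N₀ ≤ N →
    N ∉ E → ∀ α : ℝ, ‖Pool.Agent.Y842.PH.Cr f h N α‖ ≤ ε * N) (hEF : E ⊆ F) : Kf f F := by
  intro k hk ε hε
  obtain ⟨N₀, h1⟩ := h k hk ε hε
  exact ⟨N₀, fun N hN hNE => h1 N hN (fun h3 => hNE (hEF h3))⟩

theorem partB_of {E : Set ℕ} (hE : LogDensityZero E) (hmu : ∀ n, |mu n| ≤ 1) (hlam : ∀ n, |lam n| ≤ 1)
    (h1 : Kf mu E) (h2 : Kf lam E) : PartB E := by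
  intro Y G Z _ _ _ _ _ _ _ _ _ _ _ _ _ _ a φ ℓ hφ hℓ hadd hp F
  have hb : ∃ M : ℝ, ∀ y, |ℓ (φ y)| ≤ M := by
    have h3 : Continuous fun y => |ℓ (φ y)| := (hℓ.comp hφ).abs
    obtain ⟨M, hM⟩ := (isCompact_range h3).bddAbove
    exact ⟨M, fun y => hM ⟨y, rfl⟩⟩
  obtain ⟨M, hM⟩ := hb
  refine concl_of hE hmu hlam h1 h2 (continuous_const.mul continuous_id) hφ (fun c => UAP_rot a _ c)
    (sub_of_mean (fun y => a * y) φ _ ℓ hadd hp hM fun δ hδ => ?_) F
  obtain ⟨H₀, h3⟩ := mean_unif a ⟨fun y => ℓ (φ y), hℓ.comp hφ⟩ δ hδ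
  refine ⟨H₀, fun H hH y hy n => ?_⟩
  refine h3 H hH y ?_ n
  have hy' : Tendsto (fun N : ℕ => (1 / (N : ℝ)) * ∑ n ∈ range N, ℓ (φ (a ^ n * y))) atTop (𝓝 0) := hy
  refine hy'.congr fun N => ?_
  congr 1
  refine sum_congr rfl fun n _ => ?_
  show ℓ (φ (a ^ n * y)) = ℓ (φ ((fun x => a * x)^[n] y))
  rw [mul_left_iterate]

/-- the flow as an action of the multiplicative copy of the real line -/
@[instance_reducible] def flowAction {Z : Type} [TopologicalSpace Z] (R : Flow ℝ Z) : MulAction (Multiplicative ℝ) Z where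
  smul t z := R (Multiplicative.toAdd t) z
  one_smul z := R.map_zero_apply z
  mul_smul s t z := R.map_add (Multiplicative.toAdd s) (Multiplicative.toAdd t) z

theorem partC_of {E : Set ℕ} (h : PartB E) : PartC E := by
  intro Y Z _ _ _ _ _ _ _ a φ R hφ F
  let _ := flowAction R
  have _ : ContinuousSMul (Multiplicative ℝ) Z := ⟨by
    have h1 : Continuous (Function.uncurry R.toFun) := R.cont'
    exact h1.comp ((continuous_toAdd.comp continuous_fst).prodMk continuous_snd)⟩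
  have hp : IsCompact {g : Multiplicative ℝ | |Multiplicative.toAdd g| ≤ 1} := by
    have h1 : IsCompact {x : ℝ | |x| ≤ 1} := by
      have : {x : ℝ | |x| ≤ 1} = Set.Icc (-1) 1 := by
        ext x
        show |x| ≤ 1 ↔ x ∈ Set.Icc (-1 : ℝ) 1
        rw [Set.mem_Icc, abs_le]
      rw [this]
      exact isCompact_Icc
    exact h1
  exact h Y (Multiplicative ℝ) Z a (fun y => Multiplicative.ofAdd (φ y)) (fun t => Multiplicative.toAdd t)
    (continuous_ofAdd.comp hφ) continuous_toAdd (fun _ _ => rfl) hp F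

/-- **Theorem.** There is one set `E` of logarithmic density zero such that (A), (B) and (C) hold. -/
theorem result : ∃ E : Set ℕ, LogDensityZero E ∧ PartA E ∧ PartB E ∧ PartC E := by
  obtain ⟨E₁, hE₁, h1⟩ := Pool.Agent.Y842.PH.one_E (Pool.Agent.Y304.U.avc Pool.Agent.Y304.U.pw)
    Pool.Agent.TH823.MRS.mob Pool.Agent.TH823.MRS.mob_bdd Pool.Agent.TH823.MRS.mob_flip
    Pool.Agent.TH823.MRS.expo_mob
  obtain ⟨E₂, hE₂, h2⟩ := Pool.Agent.Y842.PH.one_E (Pool.Agent.Y304.U.avc Pool.Agent.Y304.U.pw)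
    Pool.Agent.H376R2.MR.lam Pool.Agent.Y842.EL.abs_lam Pool.Agent.TH823.MRS.lam_flip Pool.Agent.TH823.MRS.expo_lam
  have hE : LogDensityZero (E₁ ∪ E₂) := Pool.Agent.Y842.EL.LZ_union hE₁ hE₂
  have hmu : ∀ n, |mu n| ≤ 1 := fun n => ArithmeticFunction.abs_moebius_le_one
  have hlam : ∀ n, |lam n| ≤ 1 := fun n => by
    unfold lam
    rw [abs_pow, abs_neg, abs_one, one_pow]
  have s1 : Kf mu (E₁ ∪ E₂) := kf_of h1 Set.subset_union_left
  have s2 : Kf lam (E₁ ∪ E₂) := kf_of h2 Set.subset_union_right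
  have hB := partB_of hE hmu hlam s1 s2
  refine ⟨E₁ ∪ E₂, hE, ?_, hB, partC_of hB⟩
  intro Y G Z _ _ _ _ _ _ _ _ _ _ _ S φ P hS hφ hAP hR F
  exact concl_of hE hmu hlam s1 s2 hS hφ (uap_of hAP) (sub_of hR) F

end Pool.Agent.Results.MP_3e612f_nt.RecurrentExtensions
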